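import Pool.Agent.Helper83.DC.Vanish2

set_option autoImplicit false
set_option linter.unusedSectionVars false

/-! The inequality `|mu| ≤ rank * beta` for round representable matroids. -/

namespace Pool.Agent.Helper83.DC

open Finset Module

variable {E : Type*} [DecidableEq E] [Fintype E]
variable {K : Type*} [Field K] {V : Type*} [AddCommGroup V] [Module K V] {n : ℕ}

theorem ev_add (ω ω' : (Fin n → E) → K) (y : Fin n → E → K) :
    ev (ω + ω') y = ev ω y + ev ω' y := by
  unfold ev
  rw [← Finset.sum_add_distrib]
  apply Finset.sum_congr rfl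
  intro s _
  rw [Pi.add_apply, add_mul]

theorem ev_smul (a : K) (ω : (Fin n → E) → K) (y : Fin n → E → K) :
    ev (a • ω) y = a * ev ω y := by
  unfold ev
  rw [Finset.mul_sum]
  apply Finset.sum_congr rfl
  intro s _
  rw [Pi.smul_apply, smul_eq_mul, mul_assoc]

theorem ff_flag [FiniteDimensional K V] (u : Basis (Fin (n + 1)) K V) (v : E → V)
    (φ : V →ₗ[K] (Fin (n + 1) → K))
    (hφ : Function.Injective φ) {b : E} (hb : φ (v b) (Fin.last n) = 0)
    (w : E → K) (hw : tot K v w = 0) (t : K) :
    ff (co u v) (detF (hF φ v univ)) (w + t • Pi.single b 1) = 0 := by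
  classical
  unfold ff
  rw [ev_detF, ← Matrix.exists_vecMul_eq_zero_iff]
  set z : E → K := w + t • Pi.single b 1 with hz
  have hztot : φ (tot K v z) (Fin.last n) = 0 := by
    rw [hz, map_add, hw, map_smul, tot_single, zero_add, map_smul, Pi.smul_apply, hb, smul_zero]
  refine ⟨fun i => φ (u i) (Fin.last n), ?_, ?_⟩
  · intro h0
    have h1 : ∀ y : V, φ y (Fin.last n) = 0 := by
      intro y
      rw [← u.sum_repr y, map_sum, Finset.sum_apply]
      apply Finset.sum_eq_zero
      intro i _
      rw [map_smul, Pi.smul_apply]
      have : φ (u i) (Fin.last n) = 0 := congrFun h0 i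
      rw [this, smul_zero]
    have hsurj : Function.Surjective φ := by
      rw [← LinearMap.injective_iff_surjective_of_finrank_eq_finrank]
      · exact hφ
      · rw [Module.finrank_eq_card_basis u, Module.finrank_fin_fun, Fintype.card_fin]
    obtain ⟨y, hy⟩ := hsurj (Pi.single (Fin.last n) 1)
    have h2 := h1 y
    rw [hy, Pi.single_eq_same] at h2
    exact one_ne_zero h2
  · funext j
    simp only [Matrix.vecMul, dotProduct, Matrix.of_apply, Pi.zero_apply]
    have h1 : ∀ x : E, ∑ i, φ (u i) (Fin.last n) * co u v i x = φ (v x) (Fin.last n) := by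
      intro x
      conv_rhs => rw [← u.sum_repr (v x), map_sum, Finset.sum_apply]
      apply Finset.sum_congr rfl
      intro i _
      rw [map_smul, Pi.smul_apply, smul_eq_mul, mul_comm]
      rfl
    have h2 : ∑ i, φ (u i) (Fin.last n) * ∑ x, z x * co u v i x * hF φ v univ j x
        = ∑ x, z x * hF φ v univ j x * φ (v x) (Fin.last n) := by
      have h3 : ∀ i, φ (u i) (Fin.last n) * ∑ x, z x * co u v i x * hF φ v univ j x
          = ∑ x, z x * hF φ v univ j x * (φ (u i) (Fin.last n) * co u v i x) := by
        intro i
        rw [Finset.mul_sum]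
        apply Finset.sum_congr rfl
        intro x _
        ring
      rw [Finset.sum_congr rfl (fun i _ => h3 i), Finset.sum_comm]
      apply Finset.sum_congr rfl
      intro x _
      rw [← Finset.mul_sum, h1]
    rw [h2]
    by_cases hj : j = Fin.last n
    · subst hj
      have h3 : ∀ x, z x * hF φ v univ (Fin.last n) x * φ (v x) (Fin.last n)
          = z x * φ (v x) (Fin.last n) := by
        intro x
        unfold hF
        by_cases hx : φ (v x) (Fin.last n) = 0
        · rw [hx]; ring
        · rw [if_pos]
          · ring
          · refine ⟨Finset.mem_univ _, hx, ?_⟩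
            intro j' hj'
            exact absurd (Fin.le_last j') (not_le.mpr hj')
      rw [Finset.sum_congr rfl (fun x _ => h3 x)]
      have h4 : φ (tot K v z) (Fin.last n) = ∑ x, z x * φ (v x) (Fin.last n) := by
        rw [tot_apply, map_sum, Finset.sum_apply]
        apply Finset.sum_congr rfl
        intro x _
        rw [map_smul, Pi.smul_apply, smul_eq_mul]
      rw [← h4, hztot]
    · apply Finset.sum_eq_zero
      intro x _
      unfold hF
      by_cases hx : x ∈ univ ∧ IsLev (φ (v x)) j
      · have h3 := hx.2.2 (Fin.last n) (lt_of_le_of_ne (Fin.le_last j) hj)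
        rw [h3, mul_zero]
      · rw [if_neg hx]; ring

/-- Elements of `Kb` have vanishing derivative in the direction `b`. -/
theorem Kb_prop [FiniteDimensional K V] (u : Basis (Fin (n + 1)) K V) (v : E → V) (b : E)
    {ω : (Fin (n + 1) → E) → K} (hω : ω ∈ Kb K v univ b n)
    (w : E → K) (hw : tot K v w = 0) (t : K) :
    ff (co u v) ω (w + t • Pi.single b 1) = 0 := by
  unfold Kb at hω
  induction hω using Submodule.span_induction with
  | mem x hx =>
    obtain ⟨φ, hφ, hb, rfl⟩ := hx
    exact ff_flag u v φ hφ hb w hw t
  | zero =>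
    unfold ff ev
    simp
  | add x y _ _ hx hy =>
    unfold ff at hx hy ⊢
    rw [ev_add, hx, hy, add_zero]
  | smul a x _ hx =>
    unfold ff at hx ⊢
    rw [ev_smul, hx, mul_zero]

theorem co_zero_span (u : Basis (Fin (n + 1)) K V) (v : E → V)
    (hround : ∀ X : Finset E, rk K v X < n + 1 →
      Submodule.span K (v '' ((Xᶜ : Finset E) : Set E)) = ⊤)
    (I : Finset (Fin (n + 1))) (hI : I ≠ univ) :
    Submodule.span K (v '' {e | ∃ j, j ∉ I ∧ co u v j e ≠ 0}) = ⊤ := by
  classical
  let X : Finset E := univ.filter (fun e => ∀ j, j ∉ I → co u v j e = 0)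
  have h1 : rk K v X < n + 1 := by
    have h2 : Submodule.span K (v '' (X : Set E)) ≤ Submodule.span K ((I.image u : Finset V) : Set V) := by
      rw [Submodule.span_le]
      rintro _ ⟨x, hx, rfl⟩
      have hx' : ∀ j, j ∉ I → co u v j x = 0 := (Finset.mem_filter.mp (Finset.mem_coe.mp hx)).2
      rw [SetLike.mem_coe, ← u.sum_repr (v x)]
      apply Submodule.sum_mem
      intro j _
      by_cases hj : j ∈ I
      · apply Submodule.smul_mem
        apply Submodule.subset_span
        exact_mod_cast Finset.mem_image_of_mem u hj
      · have : u.repr (v x) j = 0 := hx' j hj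
        rw [this, zero_smul]
        exact Submodule.zero_mem _
    have : FiniteDimensional K V := Module.Basis.finiteDimensional_of_finite u
    have h3 := Submodule.finrank_mono h2
    have h4 := (finrank_span_finset_le_card (R := K) (I.image u)).trans
      (Finset.card_image_le (s := I) (f := u))
    have h5 : I.card < n + 1 := by
      have := Finset.card_lt_univ_of_notMem (s := I) (x := (Classical.choose (by
        by_contra hcon
        push Not at hcon
        exact hI (Finset.eq_univ_iff_forall.mpr hcon) : ∃ x, x ∉ I)))
        (Classical.choose_spec (by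
        by_contra hcon
        push Not at hcon
        exact hI (Finset.eq_univ_iff_forall.mpr hcon) : ∃ x, x ∉ I))
      rwa [Fintype.card_fin] at this
    unfold rk
    exact lt_of_le_of_lt (h3.trans h4) h5
  have h2 := hround X h1
  rw [← h2]
  congr 1
  congr 1
  ext e
  simp only [Set.mem_ofPred_eq, Finset.coe_compl, Set.mem_compl_iff, Finset.mem_coe, X,
    Finset.mem_filter, Finset.mem_univ, true_and]
  push Not
  rfl

theorem exists_basis_of_span [FiniteDimensional K V] (v : E → V)
    (hspan : Submodule.span K (Set.range v) = ⊤) (hV : finrank K V = n) :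
    ∃ (S : Fin n → E) (u : Basis (Fin n) K V), ∀ i, u i = v (S i) := by
  classical
  let B := Basis.ofSpan (K := K) (s := Set.range v) hspan.ge
  have hfin : Finite ((linearIndepOn_empty K id).extend (Set.empty_subset (Set.range v)) : Set V) :=
    Module.Finite.finite_basis B
  have hfin' := Fintype.ofFinite ((linearIndepOn_empty K id).extend (Set.empty_subset (Set.range v)) : Set V)
  have hc := Module.finrank_eq_card_basis B
  rw [hV] at hc
  let u := B.reindex (Fintype.equivFinOfCardEq hc.symm)
  have h1 : ∀ i, ∃ e, v e = u i := by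
    intro i
    have h2 : u i ∈ Set.range B := by
      simp only [u, Basis.reindex_apply]
      exact Set.mem_range_self _
    exact Basis.ofSpan_subset hspan.ge h2
  choose S hS using h1
  exact ⟨S, u, fun i => (hS i).symm⟩

/-- The inequality for a spanning configuration over an infinite field. -/
theorem mu_le_infinite [Infinite K] [FiniteDimensional K V] (v : E → V)
    (hspan : Submodule.span K (Set.range v) = ⊤) (hV : finrank K V = n + 1)
    (hround : ∀ X : Finset E, rk K v X < n + 1 →
      Submodule.span K (v '' ((Xᶜ : Finset E) : Set E)) = ⊤) :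
    muF (rk K v) univ (n + 1) ≤ ((n : ℤ) + 1) * beF (rk K v) univ (n + 1) := by
  classical
  by_cases hloop : ∃ x, v x = 0
  · obtain ⟨x, hvx⟩ := hloop
    have h1 : (univ : Finset E) = insert x (univ.erase x) := (Finset.insert_erase (Finset.mem_univ x)).symm
    rw [h1, muF_loop (Finset.notMem_erase x univ) _ (fun X _ => rk_insert_zero v hvx X),
      beF_loop (Finset.notMem_erase x univ) _ (fun X _ => rk_insert_zero v hvx X)]
    simp
  · push Not at hloop
    obtain ⟨S, u, hS⟩ := exists_basis_of_span v hspan hV
    have hrku : rk K v univ = n + 1 := by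
      unfold rk
      rw [Finset.coe_univ, Set.image_univ, hspan, finrank_top, hV]
    have hD := finrank_Om_le v (univ : Finset E) (n + 1) hrku.le
    have hK : ∀ i : Fin (n + 1), Kb K v univ (S i) n ≤ Om K v univ (n + 1) :=
      fun i => Kb_le_Om (fun x _ => hloop x)
    have hcod := finrank_le_sum_codim (univ : Finset (Fin (n + 1))) (Om K v univ (n + 1))
      (fun i => Kb K v univ (S i) n) (fun i _ => hK i)
    have hbot : (Om K v univ (n + 1) ⊓ (univ : Finset (Fin (n + 1))).inf
        (fun i => Kb K v univ (S i) n) : Submodule K ((Fin (n + 1) → E) → K)) = ⊥ := by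
      rw [eq_bot_iff]
      rintro ω ⟨hω1, hω2⟩
      rw [Submodule.mem_bot]
      have hω2' : ∀ i, ω ∈ Kb K v univ (S i) n := by
        intro i
        have h := Finset.inf_le (f := fun i => Kb K v univ (S i) n) (Finset.mem_univ i)
        exact h hω2
      funext s
      by_contra hs
      have hs1 := (hω1.1 s hs).2
      let u' : Basis (Fin (n + 1)) K V :=
        basisOfLinearIndependentOfCardEqFinrank hs1 (by rw [hV, Fintype.card_fin])
      have hu' : ∀ i, u' i = v (s i) := by
        intro i
        simp [u']
      apply hs
      apply vanish hu' hω1 (co_zero_span u' v hround) (Set.range S)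
      · rw [← Set.range_comp]
        have : v ∘ S = u := by
          funext i
          exact (hS i).symm
        rw [this]
        exact u.span_eq
      · rintro _ ⟨i, rfl⟩ w hw t
        exact Kb_prop u' v (S i) (hω2' i) w hw t
    rw [hbot, finrank_bot] at hcod
    have hlow : ∀ i : Fin (n + 1), muF (rk K v) univ (n + 1) - beF (rk K v) univ (n + 1)
        ≤ finrank K (Kb K v univ (S i) n) :=
      fun i => finrank_Kb_ge v univ (S i) n hV hrku (Finset.mem_univ _)
    set D : ℤ := (finrank K (Om K v univ (n + 1)) : ℤ) with hDdef
    set μ := muF (rk K v) univ (n + 1) with hμ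
    set β := beF (rk K v) univ (n + 1) with hβ
    have h1 : ∑ i : Fin (n + 1), (D - (finrank K (Kb K v univ (S i) n) : ℤ))
        ≤ ∑ _i : Fin (n + 1), (D - (μ - β)) := by
      apply Finset.sum_le_sum
      intro i _
      have := hlow i
      linarith
    rw [Finset.sum_const, Finset.card_univ, Fintype.card_fin, nsmul_eq_mul] at h1
    push_cast at h1 hcod
    have hn : (0 : ℤ) ≤ n := by positivity
    nlinarith [mul_nonneg hn (sub_nonneg.mpr hD)]

theorem rk_subtype (P : Submodule K V) (v : E → V) (hv : ∀ e, v e ∈ P) (X : Finset E) :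
    rk K (fun e => (⟨v e, hv e⟩ : P)) X = rk K v X := by
  unfold rk
  rw [← Submodule.finrank_map_subtype_eq P, Submodule.map_span, ← Set.image_comp]
  rfl

open TensorProduct in
theorem rk_baseChange (L : Type*) [Field L] [Algebra K L] [FiniteDimensional K V] (v : E → V)
    (X : Finset E) : rk L (fun e => (1 : L) ⊗ₜ[K] v e) X = rk K v X := by
  classical
  unfold rk
  set P := Submodule.span K (v '' (X : Set E)) with hP
  let b := Module.finBasis K P
  have hli : LinearIndependent K (fun i => ((b i : P) : V)) :=
    b.linearIndependent.map' P.subtype (Submodule.ker_subtype P)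
  have hli2 := Module.Flat.linearIndependent_one_tmul (S := L) hli
  have h1 := finrank_span_eq_card hli2
  have h2 : Submodule.span K (Set.range (fun i => ((b i : P) : V))) = P := by
    have h3 : Set.range (fun i => ((b i : P) : V)) = P.subtype '' (Set.range b) := by
      rw [← Set.range_comp]; rfl
    rw [h3, ← Submodule.map_span, b.span_eq, Submodule.map_top, Submodule.range_subtype]
  have h4 : Submodule.span L (Set.range (fun i => (1 : L) ⊗ₜ[K] ((b i : P) : V)))
      = Submodule.span L ((fun e => (1 : L) ⊗ₜ[K] v e) '' (X : Set E)) := by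
    have h5 : Set.range (fun i => (1 : L) ⊗ₜ[K] ((b i : P) : V))
        = TensorProduct.mk K L V 1 '' (Set.range (fun i => ((b i : P) : V))) := by
      rw [← Set.range_comp]; rfl
    have h6 : (fun e => (1 : L) ⊗ₜ[K] v e) '' (X : Set E)
        = TensorProduct.mk K L V 1 '' (v '' (X : Set E)) := by
      rw [← Set.image_comp]; rfl
    rw [h5, h6, ← Submodule.baseChange_span, ← Submodule.baseChange_span, h2]
  rw [← h4, h1, Fintype.card_fin]

/-- The inequality for configurations in any space over an infinite field. -/
theorem mu_le_infinite' {L : Type*} [Field L] [Infinite L] {W : Type*} [AddCommGroup W]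
    [Module L W] (v : E → W) (hrk : rk L v univ = n + 1)
    (hround : ∀ X : Finset E, rk L v X < n + 1 → rk L v Xᶜ = n + 1) :
    muF (rk L v) univ (n + 1) ≤ ((n : ℤ) + 1) * beF (rk L v) univ (n + 1) := by
  classical
  have hv : ∀ e, v e ∈ Submodule.span L (Set.range v) := fun e => Submodule.subset_span ⟨e, rfl⟩
  have hrk2 : rk L (fun e => (⟨v e, hv e⟩ : Submodule.span L (Set.range v))) = rk L v := by
    funext X
    exact rk_subtype _ v hv X
  have hV : finrank L (Submodule.span L (Set.range v)) = n + 1 := by
    rw [← hrk]
    unfold rk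
    rw [Finset.coe_univ, Set.image_univ]
  have hfin : FiniteDimensional L (Submodule.span L (Set.range v)) :=
    FiniteDimensional.span_of_finite L (Set.finite_range v)
  have htop : ∀ X : Finset E, rk L v X = n + 1 →
      Submodule.span L ((fun e => (⟨v e, hv e⟩ : Submodule.span L (Set.range v))) '' (X : Set E))
        = ⊤ := by
    intro X hX
    apply Submodule.eq_top_of_finrank_eq
    rw [hV, ← hX, ← hrk2]
    rfl
  have hspan : Submodule.span L
      (Set.range (fun e => (⟨v e, hv e⟩ : Submodule.span L (Set.range v)))) = ⊤ := by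
    have h1 := htop univ hrk
    rwa [Finset.coe_univ, Set.image_univ] at h1
  have h1 := mu_le_infinite (fun e => (⟨v e, hv e⟩ : Submodule.span L (Set.range v))) hspan hV
    (fun X hX => htop _ (by
      rw [hrk2] at hX
      exact hround X hX))
  rw [hrk2] at h1
  exact h1

/-- The inequality for configurations of vectors over an arbitrary field. -/
theorem mu_le_rep [FiniteDimensional K V] (v : E → V) (hrk : rk K v univ = n + 1)
    (hround : ∀ X : Finset E, rk K v X < n + 1 → rk K v Xᶜ = n + 1) :
    muF (rk K v) univ (n + 1) ≤ ((n : ℤ) + 1) * beF (rk K v) univ (n + 1) := by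
  classical
  have h1 : rk (AlgebraicClosure K)
      (fun e => TensorProduct.tmul K (1 : AlgebraicClosure K) (v e)) = rk K v := by
    funext X
    exact rk_baseChange (AlgebraicClosure K) v X
  have h2 := mu_le_infinite' (n := n) (L := AlgebraicClosure K)
    (fun e => TensorProduct.tmul K (1 : AlgebraicClosure K) (v e)) (by rw [h1]; exact hrk)
    (by rw [h1]; exact hround)
  rw [h1] at h2
  exact h2

end Pool.Agent.Helper83.DC
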