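import Pool.Agent.Helper83.DC.Low

set_option autoImplicit false
set_option linter.unusedSectionVars false

/-! Evaluation polynomials of cochains. -/

namespace Pool.Agent.Helper83.DC

open Finset Module

variable {E : Type*} [DecidableEq E] [Fintype E]
variable {K : Type*} [Field K] {V : Type*} [AddCommGroup V] [Module K V] {n : ℕ}

/-- Multilinear extension of a cochain. -/
def ev (ω : (Fin n → E) → K) (y : Fin n → E → K) : K := ∑ s : Fin n → E, ω s * ∏ i, y i (s i)

/-- The polynomial of a cochain, for a matrix `c` of coordinates. -/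
def ff (c : Fin n → E → K) (ω : (Fin n → E) → K) (z : E → K) : K :=
  ev ω (fun i x => z x * c i x)

/-- The directional derivative of `ff`. -/
def dd (c : Fin n → E → K) (ω : (Fin n → E) → K) (z : E → K) : (E → K) →ₗ[K] K where
  toFun := fun d => ∑ s : Fin n → E, ω s * ∑ i, (∏ j ∈ univ.erase i, z (s j) * c j (s j)) *
    (d (s i) * c i (s i))
  map_add' := by
    intro x y
    rw [← Finset.sum_add_distrib]
    apply Finset.sum_congr rfl
    intro s _
    rw [← mul_add, ← Finset.sum_add_distrib]
    congr 1
    apply Finset.sum_congr rfl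
    intro i _
    rw [Pi.add_apply]; ring
  map_smul' := by
    intro a x
    rw [RingHom.id_apply, smul_eq_mul, Finset.mul_sum]
    apply Finset.sum_congr rfl
    intro s _
    have h1 : ∀ i, (∏ j ∈ univ.erase i, z (s j) * c j (s j)) * ((a • x) (s i) * c i (s i))
        = a * ((∏ j ∈ univ.erase i, z (s j) * c j (s j)) * (x (s i) * c i (s i))) := by
      intro i
      rw [Pi.smul_apply, smul_eq_mul]; ring
    rw [Finset.sum_congr rfl (fun i _ => h1 i), ← Finset.mul_sum]
    ring

theorem dd_apply (c : Fin n → E → K) (ω : (Fin n → E) → K) (z d : E → K) :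
    dd c ω z d = ∑ s : Fin n → E, ω s * ∑ i, (∏ j ∈ univ.erase i, z (s j) * c j (s j)) *
      (d (s i) * c i (s i)) := rfl

/-- If the polynomial vanishes on a punctured line then the derivative vanishes. -/
theorem dd_eq_zero [Infinite K] (c : Fin n → E → K) (ω : (Fin n → E) → K) (z d : E → K)
    (h : ∀ t : K, t ≠ 0 → ff c ω (z + t • d) = 0) : dd c ω z d = 0 := by
  classical
  let p : Polynomial K := ∑ s : Fin n → E, Polynomial.C (ω s) *
    ∏ i, (Polynomial.C (z (s i) * c i (s i)) + Polynomial.C (d (s i) * c i (s i)) * Polynomial.X)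
  have h1 : ∀ t, p.eval t = ff c ω (z + t • d) := by
    intro t
    simp only [p, Polynomial.eval_finsetSum, Polynomial.eval_mul, Polynomial.eval_C,
      Polynomial.eval_prod, Polynomial.eval_add, Polynomial.eval_X]
    unfold ff ev
    apply Finset.sum_congr rfl
    intro s _
    congr 1
    apply Finset.prod_congr rfl
    intro i _
    change _ = (z (s i) + t * d (s i)) * c i (s i)
    ring
  have h2 : p = 0 := by
    apply Polynomial.eq_zero_of_infinite_isRoot
    have h3 : ({0}ᶜ : Set K).Infinite := Set.Finite.infinite_compl (Set.finite_singleton 0)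
    apply h3.mono
    intro t ht
    change p.eval t = 0
    rw [h1]
    exact h t ht
  have h3 : (Polynomial.derivative p).eval 0 = dd c ω z d := by
    rw [dd_apply]
    simp only [p, Polynomial.derivative_sum, Polynomial.eval_finsetSum]
    apply Finset.sum_congr rfl
    intro s _
    rw [Polynomial.derivative_C_mul, Polynomial.eval_mul, Polynomial.eval_C,
      Polynomial.derivative_prod_finset, Polynomial.eval_finsetSum]
    congr 1
    apply Finset.sum_congr rfl
    intro i _
    rw [Polynomial.eval_mul, Polynomial.eval_prod]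
    congr 1
    · apply Finset.prod_congr rfl
      intro j _
      simp
    · simp
  rw [← h3, h2]
  simp

theorem prod_add_one_nonzero {ι : Type*} [Fintype ι] [DecidableEq ι] (a b : ι → K) (t : K)
    (h : ∀ i j, b i ≠ 0 → b j ≠ 0 → i = j) :
    ∏ i, (a i + t * b i) = ∏ i, a i + t * ∑ i, (∏ j ∈ univ.erase i, a j) * b i := by
  by_cases h0 : ∀ i, b i = 0
  · have h1 : ∀ i, a i + t * b i = a i := fun i => by rw [h0 i]; ring
    rw [Finset.prod_congr rfl (fun i _ => h1 i)]
    have h2 : ∑ i, (∏ j ∈ univ.erase i, a j) * b i = 0 := by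
      apply Finset.sum_eq_zero
      intro i _
      rw [h0 i, mul_zero]
    rw [h2, mul_zero, add_zero]
  · push Not at h0
    obtain ⟨i, hi⟩ := h0
    have hb : ∀ j, j ≠ i → b j = 0 := by
      intro j hj
      by_contra hbj
      exact hj (h j i hbj hi)
    rw [← Finset.mul_prod_erase univ (fun j => a j + t * b j) (Finset.mem_univ i),
      ← Finset.mul_prod_erase univ a (Finset.mem_univ i), Finset.sum_eq_single i]
    · have h1 : ∏ x ∈ univ.erase i, (a x + t * b x) = ∏ x ∈ univ.erase i, a x := by
        apply Finset.prod_congr rfl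
        intro j hj
        rw [hb j (Finset.ne_of_mem_erase hj)]; ring
      rw [h1]; ring
    · intro j _ hj
      rw [hb j hj, mul_zero]
    · intro hh; exact absurd (Finset.mem_univ i) hh

/-- Multi-affinity. -/
theorem ff_add_single (c : Fin n → E → K) (ω : (Fin n → E) → K)
    (hω : ∀ s, ω s ≠ 0 → Function.Injective s) (z : E → K) (x : E) (t : K) :
    ff c ω (z + t • Pi.single x 1) = ff c ω z + t * dd c ω z (Pi.single x 1) := by
  rw [dd_apply]
  unfold ff ev
  rw [Finset.mul_sum, ← Finset.sum_add_distrib]
  apply Finset.sum_congr rfl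
  intro s _
  by_cases hs : ω s = 0
  · rw [hs]; ring
  · have hinj := hω s hs
    have h1 : ∏ i, ((z + t • (Pi.single x 1 : E → K)) (s i) * c i (s i))
        = ∏ i, (z (s i) * c i (s i) + t * ((Pi.single x 1 : E → K) (s i) * c i (s i))) := by
      apply Finset.prod_congr rfl
      intro i _
      rw [Pi.add_apply, Pi.smul_apply, smul_eq_mul]; ring
    rw [h1, prod_add_one_nonzero]
    · ring
    · intro i j hi hj
      have h2 : ∀ k, (Pi.single x 1 : E → K) (s k) * c k (s k) ≠ 0 → s k = x := by
        intro k hk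
        by_contra hne
        apply hk
        rw [Pi.single_eq_of_ne hne, zero_mul]
      exact hinj ((h2 i hi).trans (h2 j hj).symm)

/-- Cocycle property of the multilinear extension. -/
theorem ev_cone {v : E → V} {ω : (Fin (n + 1) → E) → K} (hω : ω ∈ Om K v univ (n + 1)) (e : E)
    (y : Fin (n + 1) → E → K) :
    ev ω y = ∑ i : Fin (n + 1), (-1 : K) ^ (i : ℕ) * (∑ x, y i x) *
      ev (conE K e n ω) (fun j => y (i.succAbove j)) := by
  have h1 : ev ω y = ∑ s : Fin (n + 1) → E, ∑ i : Fin (n + 1),
      ((-1 : K) ^ (i : ℕ) * ω (Fin.cons e (s ∘ i.succAbove))) * ∏ k, y k (s k) := by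
    unfold ev
    apply Finset.sum_congr rfl
    intro s _
    rw [Om_cone hω (Finset.mem_univ e) s (fun i => Finset.mem_univ _), Finset.sum_mul]
  rw [h1, Finset.sum_comm]
  apply Finset.sum_congr rfl
  intro i _
  rw [← (Fin.insertNthEquiv (fun _ => E) i).sum_comp, Fintype.sum_prod_type]
  unfold ev
  rw [mul_assoc, Finset.sum_mul_sum, Finset.mul_sum]
  apply Finset.sum_congr rfl
  intro x _
  rw [Finset.mul_sum]
  apply Finset.sum_congr rfl
  intro s _
  have h2 : ((Fin.insertNthEquiv (fun _ => E) i) (x, s)) ∘ i.succAbove = s := by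
    funext j
    simp [Fin.insertNthEquiv]
  rw [h2, Fin.prod_univ_succAbove _ i]
  have h3 : (Fin.insertNthEquiv (fun _ => E) i) (x, s) i = x := by
    simp [Fin.insertNthEquiv]
  have h4 : ∀ j, (Fin.insertNthEquiv (fun _ => E) i) (x, s) (i.succAbove j) = s j := by
    intro j
    exact congrFun h2 j
  rw [h3, Finset.prod_congr rfl (fun j _ => by rw [h4 j])]
  have h5 : conE K e n ω s = ω (Fin.cons e s) := rfl
  rw [h5]
  ring

/-- Determinant form of the evaluation of determinant cochains. -/
theorem ev_detF (h g : Fin n → E → K) :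
    ev (detF h) g = Matrix.det (Matrix.of fun i j => ∑ x, g i x * h j x) := by
  classical
  rw [Matrix.det_apply]
  unfold ev detF
  have h1 : ∀ s : Fin n → E, (Matrix.of fun i j => h j (s i)).det * ∏ i, g i (s i)
      = ∑ σ : Equiv.Perm (Fin n), Equiv.Perm.sign σ • ∏ i, (g (σ i) (s (σ i)) * h i (s (σ i))) := by
    intro s
    rw [Matrix.det_apply, Finset.sum_mul]
    apply Finset.sum_congr rfl
    intro σ _
    rw [smul_mul_assoc]
    congr 1
    rw [Finset.prod_mul_distrib, mul_comm]
    congr 1
    exact (Equiv.prod_comp σ (fun i => g i (s i))).symm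
  rw [Finset.sum_congr rfl (fun s _ => h1 s), Finset.sum_comm]
  apply Finset.sum_congr rfl
  intro σ _
  rw [← Finset.smul_sum]
  congr 1
  have h2 : ∑ s : Fin n → E, ∏ i, (g (σ i) (s (σ i)) * h i (s (σ i)))
      = ∑ s : Fin n → E, ∏ i, (g (σ i) (s i) * h i (s i)) := by
    have := (Equiv.arrowCongr σ (Equiv.refl E)).sum_comp
      (fun s : Fin n → E => ∏ i, (g (σ i) (s (σ i)) * h i (s (σ i))))
    rw [← this]
    apply Finset.sum_congr rfl
    intro s _
    apply Finset.prod_congr rfl
    intro i _
    simp [Equiv.arrowCongr]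
  rw [h2]
  simp only [Matrix.of_apply]
  rw [Finset.prod_univ_sum]
  simp

end Pool.Agent.Helper83.DC
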