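import Pool.Agent.Helper83.DC.Om

set_option autoImplicit false
set_option linter.unusedSectionVars false

/-! Flag cocycles. -/

namespace Pool.Agent.Helper83.DC

open Finset Module

variable {E : Type*} [DecidableEq E] [Fintype E]
variable {K : Type*} [Field K] {V : Type*} [AddCommGroup V] [Module K V]

/-- `j` is the position of the last nonzero coordinate of `y`. -/
def IsLev {n : ℕ} (y : Fin n → K) (j : Fin n) : Prop := y j ≠ 0 ∧ ∀ j', j < j' → y j' = 0

theorem IsLev.unique {n : ℕ} {y : Fin n → K} {j k : Fin n} (h : IsLev y j) (h' : IsLev y k) :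
    j = k := by
  rcases lt_trichotomy j k with h1 | h1 | h1
  · exact absurd (h.2 k h1) h'.1
  · exact h1
  · exact absurd (h'.2 j h1) h.1

theorem exists_isLev {n : ℕ} {y : Fin n → K} (h : y ≠ 0) : ∃ j, IsLev y j := by
  classical
  have hne : (univ.filter (fun j => y j ≠ 0)).Nonempty := by
    by_contra hcon
    rw [Finset.not_nonempty_iff_eq_empty] at hcon
    apply h
    funext j
    by_contra hj
    have : j ∈ univ.filter (fun j => y j ≠ 0) := by simp; exact hj
    rw [hcon] at this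
    simp at this
  refine ⟨(univ.filter (fun j => y j ≠ 0)).max' hne, ?_, ?_⟩
  · have := Finset.max'_mem _ hne
    exact (Finset.mem_filter.mp this).2
  · intro j' hj'
    by_contra hcon
    have : j' ∈ univ.filter (fun j => y j ≠ 0) := by simp; exact hcon
    exact absurd (Finset.le_max' _ _ this) (not_le.mpr hj')

open Classical in
/-- The level indicators of a flag. -/
noncomputable def hF {n : ℕ} (φ : V → (Fin n → K)) (v : E → V) (A : Finset E) (j : Fin n) (x : E) :
    K :=
  if x ∈ A ∧ IsLev (φ (v x)) j then 1 else 0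

/-- Determinant cochain. -/
def detF {n : ℕ} (h : Fin n → E → K) (s : Fin n → E) : K :=
  Matrix.det (Matrix.of fun i j => h j (s i))

theorem detF_cocycle {n : ℕ} {h : Fin n → E → K} {A : Finset E}
    (hsum : ∀ x ∈ A, ∑ j, h j x = 1) (s : Fin (n + 1) → E) (hs : ∀ i, s i ∈ A) :
    ∑ i : Fin (n + 1), (-1 : K) ^ (i : ℕ) * detF h (s ∘ i.succAbove) = 0 := by
  classical
  let N : Matrix (Fin (n + 1)) (Fin (n + 1)) K :=
    Matrix.of fun i j => (Fin.cons 1 (fun j' => h j' (s i)) : Fin (n + 1) → K) j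
  have h1 : N.det = ∑ i : Fin (n + 1), (-1 : K) ^ (i : ℕ) * detF h (s ∘ i.succAbove) := by
    rw [Matrix.det_succ_column_zero]
    apply Finset.sum_congr rfl
    intro i _
    have h2 : N i 0 = 1 := rfl
    rw [h2, mul_one]
    rfl
  rw [← h1, ← Matrix.exists_mulVec_eq_zero_iff]
  refine ⟨Fin.cons 1 (fun _ => -1), ?_, ?_⟩
  · intro hh
    have := congrFun hh 0
    simp at this
  · funext i
    simp only [Matrix.mulVec, dotProduct, Pi.zero_apply]
    rw [Fin.sum_univ_succ]
    have h2 : N i 0 = 1 := rfl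
    have h3 : ∀ j : Fin n, N i j.succ = h j (s i) := fun j => rfl
    simp only [Fin.cons_zero, Fin.cons_succ, h2, h3, mul_neg, mul_one, Finset.sum_neg_distrib,
      hsum (s i) (hs i)]
    ring

theorem hF_sum {n : ℕ} {φ : V → (Fin n → K)} {v : E → V} {A : Finset E} {x : E} (hx : x ∈ A)
    (hφ : φ (v x) ≠ 0) : ∑ j, hF φ v A j x = 1 := by
  classical
  obtain ⟨j, hj⟩ := exists_isLev hφ
  rw [Finset.sum_eq_single j]
  · unfold hF; rw [if_pos ⟨hx, hj⟩]
  · intro k _ hk
    unfold hF
    rw [if_neg]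
    rintro ⟨_, h2⟩
    exact hk (h2.unique hj)
  · intro h; exact absurd (Finset.mem_univ j) h

theorem detF_ne {n : ℕ} {φ : V →ₗ[K] (Fin n → K)} {v : E → V} {A : Finset E} {s : Fin n → E}
    (h : detF (hF φ v A) s ≠ 0) : (∀ i, s i ∈ A) ∧ LinearIndependent K (v ∘ s) := by
  classical
  have h1 : ∃ σ : Equiv.Perm (Fin n), ∀ i, hF φ v A i (s (σ i)) ≠ 0 := by
    by_contra hcon
    push Not at hcon
    apply h
    unfold detF
    rw [Matrix.det_apply]
    apply Finset.sum_eq_zero
    intro σ _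
    obtain ⟨i, hi⟩ := hcon σ
    rw [Finset.prod_eq_zero (Finset.mem_univ i) (by exact hi), smul_zero]
  obtain ⟨σ, hσ⟩ := h1
  have h2 : ∀ i, s (σ i) ∈ A ∧ IsLev (φ (v (s (σ i)))) i := by
    intro i
    by_contra hcon
    apply hσ i
    unfold hF
    rw [if_neg hcon]
  refine ⟨?_, ?_⟩
  · intro i
    have := (h2 (σ.symm i)).1
    simpa using this
  · let T : Matrix (Fin n) (Fin n) K := Matrix.of fun i j => φ (v (s (σ i))) j
    have hT : T.det ≠ 0 := by
      have h3 : T.det = ∏ i, T i i := by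
        apply Matrix.det_of_isLowerTriangular
        intro i j hij
        exact (h2 i).2.2 j hij
      rw [h3]
      exact Finset.prod_ne_zero_iff.mpr (fun i _ => (h2 i).2.1)
    have h3 := Matrix.linearIndependent_rows_of_det_ne_zero hT
    have h4 : LinearIndependent K (φ ∘ (v ∘ s ∘ σ)) := h3
    have h5 : LinearIndependent K (v ∘ s ∘ σ) := LinearIndependent.of_comp φ h4
    have h6 := h5.comp σ.symm σ.symm.injective
    have h7 : (v ∘ s ∘ σ) ∘ σ.symm = v ∘ s := by
      funext i
      simp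
    rwa [h7] at h6

/-- The flag cochains are cocycles. -/
theorem detF_mem_Om {n : ℕ} {φ : V →ₗ[K] (Fin n → K)} {v : E → V} {A : Finset E}
    (hφ : ∀ x ∈ A, φ (v x) ≠ 0) : detF (hF φ v A) ∈ Om K v A n :=
  ⟨fun _ hs => detF_ne hs, fun s hs => detF_cocycle (fun x hx => hF_sum hx (hφ x hx)) s hs⟩

/-- Span of the flag cochains whose hyperplane contains `b`. -/
def Kb (K : Type*) [Field K] {V : Type*} [AddCommGroup V] [Module K V]
    (v : E → V) (A : Finset E) (b : E) (n : ℕ) : Submodule K ((Fin (n + 1) → E) → K) :=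
  Submodule.span K {ω | ∃ φ : V →ₗ[K] (Fin (n + 1) → K), Function.Injective φ ∧
    φ (v b) (Fin.last n) = 0 ∧ ω = detF (hF φ v A)}

theorem Kb_le_Om {v : E → V} {A : Finset E} {b : E} {n : ℕ} (hv : ∀ x ∈ A, v x ≠ 0) :
    Kb K v A b n ≤ Om K v A (n + 1) := by
  unfold Kb
  rw [Submodule.span_le]
  rintro _ ⟨φ, hφ, _, rfl⟩
  apply detF_mem_Om
  intro x hx h0
  apply hv x hx
  apply hφ
  rw [h0, map_zero]

theorem resA_detF {n : ℕ} (φ : V → (Fin n → K)) (v : E → V) {A A' : Finset E} (hA : A' ⊆ A) :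
    resA K E A' n (detF (hF φ v A)) = detF (hF φ v A') := by
  classical
  funext s
  by_cases h : ∀ i, s i ∈ A'
  · have h1 : resA K E A' n (detF (hF φ v A)) s = detF (hF φ v A) s := if_pos h
    rw [h1]
    unfold detF
    congr 1
    funext i j
    simp only [Matrix.of_apply]
    unfold hF
    have h2 := h i
    have h3 := hA h2
    simp only [h2, h3, true_and]
  · have h1 : resA K E A' n (detF (hF φ v A)) s = 0 := if_neg h
    rw [h1]
    by_contra hcon
    push Not at h
    obtain ⟨i, hi⟩ := h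
    apply hcon
    symm
    unfold detF
    apply Matrix.det_eq_zero_of_row_eq_zero i
    intro j
    simp only [Matrix.of_apply]
    unfold hF
    rw [if_neg]
    rintro ⟨h2, _⟩
    exact hi h2

theorem Kb_res {v : E → V} {A A' : Finset E} (hA : A' ⊆ A) {b : E} {n : ℕ} :
    ∀ y ∈ Kb K v A' b n, ∃ x ∈ Kb K v A b n, resA K E A' (n + 1) x = y := by
  have h1 : Kb K v A' b n ≤ (Kb K v A b n).map (resA K E A' (n + 1)) := by
    unfold Kb
    rw [Submodule.span_le]
    rintro _ ⟨φ, hφ, hb, rfl⟩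
    refine ⟨detF (hF φ v A), Submodule.subset_span ⟨φ, hφ, hb, rfl⟩, resA_detF φ v hA⟩
  intro y hy
  obtain ⟨x, hx, hxy⟩ := h1 hy
  exact ⟨x, hx, hxy⟩

end Pool.Agent.Helper83.DC
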