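import Mathlib

set_option autoImplicit false

/-! Linear algebra lemmas for MP_dc96bc_co. -/

namespace Pool.Agent.Helper83.DC

open Module

variable {K : Type*} [Field K] {X Y Z : Type*} [AddCommGroup X] [Module K X]
  [AddCommGroup Y] [Module K Y] [AddCommGroup Z] [Module K Z]

theorem finrank_le_add [FiniteDimensional K X] [FiniteDimensional K Y] [FiniteDimensional K Z]
    (P : Submodule K X) (Q : Submodule K Y) (R : Submodule K Z)
    (f : X →ₗ[K] Y) (g : X →ₗ[K] Z) (hf : ∀ x ∈ P, f x ∈ Q)
    (hg : ∀ x ∈ P, f x = 0 → g x ∈ R) (h0 : ∀ x ∈ P, f x = 0 → g x = 0 → x = 0) :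
    finrank K P ≤ finrank K Q + finrank K R := by
  have h1 := (f.domRestrict P).finrank_range_add_finrank_ker
  have h2 : finrank K (LinearMap.range (f.domRestrict P)) ≤ finrank K Q := by
    apply Submodule.finrank_mono
    rintro _ ⟨x, rfl⟩
    exact hf x.1 x.2
  have h3 : finrank K (LinearMap.ker (f.domRestrict P)) ≤ finrank K R := by
    let φ : LinearMap.ker (f.domRestrict P) →ₗ[K] R :=
      { toFun := fun x => ⟨g x.1.1, hg x.1.1 x.1.2 (by
          have := x.2
          rw [LinearMap.mem_ker] at this
          exact this)⟩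
        map_add' := by
          intro x y
          apply Subtype.ext
          simp
        map_smul' := by
          intro c x
          apply Subtype.ext
          simp }
    apply LinearMap.finrank_le_finrank_of_injective (f := φ)
    rw [← LinearMap.ker_eq_bot, LinearMap.ker_eq_bot']
    intro x hx
    have h4 : g x.1.1 = 0 := congrArg Subtype.val hx
    have h5 : f x.1.1 = 0 := by
      have := x.2
      rw [LinearMap.mem_ker] at this
      exact this
    apply Subtype.ext
    apply Subtype.ext
    exact h0 x.1.1 x.1.2 h5 h4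
  omega

theorem finrank_ge_add [FiniteDimensional K X] [FiniteDimensional K Y] [FiniteDimensional K Z]
    (P : Submodule K X) (Q : Submodule K Y) (R : Submodule K Z)
    (f : X →ₗ[K] Y) (g : X →ₗ[K] Z) (hf : ∀ y ∈ Q, ∃ x ∈ P, f x = y)
    (hg : ∀ z ∈ R, ∃ x ∈ P, f x = 0 ∧ g x = z) :
    finrank K Q + finrank K R ≤ finrank K P := by
  have h1 := (f.domRestrict P).finrank_range_add_finrank_ker
  have h2 : finrank K Q ≤ finrank K (LinearMap.range (f.domRestrict P)) := by
    apply Submodule.finrank_mono
    intro y hy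
    obtain ⟨x, hx, rfl⟩ := hf y hy
    exact ⟨⟨x, hx⟩, rfl⟩
  have h3 : finrank K R ≤ finrank K (LinearMap.ker (f.domRestrict P)) := by
    let φ : LinearMap.ker (f.domRestrict P) →ₗ[K] Z := g.comp ((Submodule.subtype P).comp (Submodule.subtype _))
    have h4 : finrank K R ≤ finrank K (LinearMap.range φ) := by
      apply Submodule.finrank_mono
      intro z hz
      obtain ⟨x, hx, hfx, rfl⟩ := hg z hz
      refine ⟨⟨⟨x, hx⟩, ?_⟩, rfl⟩
      rw [LinearMap.mem_ker]; exact hfx
    exact h4.trans (LinearMap.finrank_range_le φ)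
  omega

/-- If the intersection of a family of subspaces is zero, the codimensions add up to at least
the dimension. -/
theorem finrank_le_sum_codim [FiniteDimensional K X] {ι : Type*} (s : Finset ι)
    (P : Submodule K X) (Q : ι → Submodule K X) (hQ : ∀ i ∈ s, Q i ≤ P) :
    (finrank K P : ℤ) ≤ finrank K (P ⊓ s.inf Q : Submodule K X)
      + ∑ i ∈ s, ((finrank K P : ℤ) - finrank K (Q i)) := by
  classical
  induction s using Finset.induction_on with
  | empty =>
    rw [Finset.inf_empty, inf_top_eq]
    simp
  | insert a t ha ih =>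
    have h1 := ih (fun i hi => hQ i (Finset.mem_insert_of_mem hi))
    rw [Finset.sum_insert ha, Finset.inf_insert]
    have h2 := Submodule.finrank_sup_add_finrank_inf_eq (P ⊓ t.inf Q) (Q a)
    have h3 : finrank K ((P ⊓ t.inf Q) ⊔ Q a : Submodule K X) ≤ finrank K P :=
      Submodule.finrank_mono (sup_le inf_le_left (hQ a (Finset.mem_insert_self _ _)))
    have h4 : (P ⊓ t.inf Q) ⊓ Q a = P ⊓ (Q a ⊓ t.inf Q) := by
      ext x
      simp only [Submodule.mem_inf]
      tauto
    rw [h4] at h2
    have h5 : (finrank K ((P ⊓ t.inf Q) ⊔ Q a : Submodule K X) : ℤ)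
        + finrank K (P ⊓ (Q a ⊓ t.inf Q) : Submodule K X)
        = finrank K (P ⊓ t.inf Q : Submodule K X) + finrank K (Q a) := by exact_mod_cast h2
    have h6 : (finrank K ((P ⊓ t.inf Q) ⊔ Q a : Submodule K X) : ℤ) ≤ finrank K P := by
      exact_mod_cast h3
    linarith

end Pool.Agent.Helper83.DC
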