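import Pool.Agent.Helper83.DC.Flag

set_option autoImplicit false
set_option linter.unusedSectionVars false

/-! Lower bound for the span of flag cochains. -/

namespace Pool.Agent.Helper83.DC

open Finset Module

variable {E : Type*} [DecidableEq E] [Fintype E]
variable {K : Type*} [Field K] {V : Type*} [AddCommGroup V] [Module K V]

theorem ctr_apply (v : E → V) (e x : E) :
    ctr K v e x = (Submodule.span K {v e}).mkQ (v x) := rfl

theorem ctr_eq_zero_iff (v : E → V) (e x : E) :
    ctr K v e x = 0 ↔ v x ∈ Submodule.span K {v e} := by
  rw [ctr_apply, Submodule.mkQ_apply, Submodule.Quotient.mk_eq_zero]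

theorem exists_succ_of_lt {n : ℕ} {j j' : Fin (n + 1)} (h : j < j') : ∃ k : Fin n, j' = k.succ := by
  have h0 : j' ≠ 0 := by
    intro h0
    rw [h0] at h
    exact absurd h (Fin.not_lt_zero _)
  exact ⟨j'.pred h0, (Fin.succ_pred j' h0).symm⟩

/-- Lift of a flag of the contraction. -/
theorem Kb_con {v : E → V} {A' : Finset E} {b e : E} {n : ℕ} (he : e ∉ A') (hve : v e ≠ 0)
    (hpar : ∀ x ∈ A', ctr K v e x ≠ 0) :
    ∀ z ∈ Kb K (ctr K v e) A' b n, ∃ x ∈ Kb K v (insert e A') b (n + 1),
      resA K E A' (n + 2) x = 0 ∧ conE K e (n + 1) x = z := by
  classical
  have h1 : Kb K (ctr K v e) A' b n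
      ≤ (Kb K v (insert e A') b (n + 1) ⊓ LinearMap.ker (resA K E A' (n + 2))).map
        (conE K e (n + 1)) := by
    conv_lhs => unfold Kb
    rw [Submodule.span_le]
    rintro _ ⟨φ', hφ', hb, rfl⟩
    obtain ⟨ψ, hψ⟩ : ∃ ψ : Module.Dual K V, ψ (v e) ≠ 0 := by
      by_contra hcon
      push Not at hcon
      exact hve ((Module.forall_dual_apply_eq_zero_iff K (v e)).mp hcon)
    let L := Submodule.span K {v e}
    let φ : V →ₗ[K] (Fin (n + 2) → K) :=
      LinearMap.pi (fun i => (Fin.cases ψ
        (fun j => (LinearMap.proj j).comp (φ'.comp L.mkQ)) i : V →ₗ[K] K))
    have hφ0 : ∀ x, φ x 0 = ψ x := fun x => rfl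
    have hφs : ∀ x (j : Fin (n + 1)), φ x j.succ = φ' (L.mkQ x) j := fun x j => rfl
    have hmk : L.mkQ (v e) = 0 := by
      rw [Submodule.mkQ_apply, Submodule.Quotient.mk_eq_zero]
      exact Submodule.mem_span_singleton_self _
    have hφe : ∀ j : Fin (n + 1), φ (v e) j.succ = 0 := by
      intro j
      rw [hφs, hmk, map_zero]; rfl
    have hinj : Function.Injective φ := by
      rw [← LinearMap.ker_eq_bot, LinearMap.ker_eq_bot']
      intro x hx
      have h2 : φ' (L.mkQ x) = 0 := by
        funext j
        rw [← hφs, hx]; rfl
      have h3 : L.mkQ x = 0 := hφ' (by rw [h2, map_zero])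
      rw [Submodule.mkQ_apply, Submodule.Quotient.mk_eq_zero, Submodule.mem_span_singleton] at h3
      obtain ⟨a, rfl⟩ := h3
      have h4 : ψ (a • v e) = 0 := by rw [← hφ0, hx]; rfl
      rw [map_smul, smul_eq_mul, mul_eq_zero] at h4
      rcases h4 with h4 | h4
      · rw [h4, zero_smul]
      · exact absurd h4 hψ
    have hlast : φ (v b) (Fin.last (n + 1)) = 0 := by
      rw [← Fin.succ_last, hφs]
      exact hb
    -- levels
    have hlev0 : ∀ x, IsLev (φ (v x)) 0 → ctr K v e x = 0 := by
      intro x hx
      apply hφ'
      rw [map_zero]
      funext j
      have h2 := hx.2 j.succ (Fin.succ_pos j)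
      rw [hφs] at h2
      exact h2
    have hlevs : ∀ x (j : Fin (n + 1)), IsLev (φ (v x)) j.succ ↔ IsLev (φ' (ctr K v e x)) j := by
      intro x j
      constructor
      · intro hx
        refine ⟨?_, ?_⟩
        · have := hx.1
          rw [hφs] at this
          exact this
        · intro j' hj'
          have := hx.2 j'.succ (by simpa using hj')
          rw [hφs] at this
          exact this
      · intro hx
        refine ⟨?_, ?_⟩
        · rw [hφs]; exact hx.1
        · intro j' hj'
          obtain ⟨k, rfl⟩ := exists_succ_of_lt hj'
          rw [hφs]
          exact hx.2 k (by simpa using hj')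
    refine ⟨detF (hF φ v (insert e A')), ⟨Submodule.subset_span ⟨φ, hinj, hlast, rfl⟩, ?_⟩, ?_⟩
    · rw [SetLike.mem_coe, LinearMap.mem_ker, resA_detF φ v (Finset.subset_insert e A')]
      funext s
      unfold detF
      apply Matrix.det_eq_zero_of_column_eq_zero 0
      intro i
      simp only [Matrix.of_apply]
      unfold hF
      rw [if_neg]
      rintro ⟨h2, h3⟩
      exact hpar _ h2 (hlev0 _ h3)
    · funext t
      have h2 : conE K e (n + 1) (detF (hF φ v (insert e A'))) t
          = Matrix.det (Matrix.of fun i j =>
              hF φ v (insert e A') j ((Fin.cons e t : Fin (n + 2) → E) i)) := rfl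
      rw [h2, Matrix.det_succ_row_zero, Finset.sum_eq_single 0]
      · have h3 : hF φ v (insert e A') 0 e = (1 : K) := by
          unfold hF
          rw [if_pos]
          refine ⟨Finset.mem_insert_self _ _, hψ, ?_⟩
          intro j' hj'
          obtain ⟨k, rfl⟩ := exists_succ_of_lt hj'
          exact hφe k
        simp only [Matrix.of_apply, Fin.cons_zero, h3, Fin.val_zero, pow_zero, one_mul]
        unfold detF
        congr 1
        funext i j
        simp only [Matrix.submatrix_apply, Matrix.of_apply, Fin.cons_succ, Fin.succAbove_zero]
        unfold hF
        by_cases hte : t i = e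
        · rw [if_neg, if_neg]
          · rintro ⟨h4, _⟩
            rw [hte] at h4
            exact he h4
          · rintro ⟨_, h4⟩
            rw [hte] at h4
            exact h4.1 (hφe j)
        · have h4 : t i ∈ insert e A' ↔ t i ∈ A' := by
            rw [Finset.mem_insert]
            constructor
            · rintro (h | h)
              · exact absurd h hte
              · exact h
            · exact Or.inr
          simp only [h4, hlevs]
      · intro j _ hj
        have h3 : hF φ v (insert e A') j e = (0 : K) := by
          unfold hF
          rw [if_neg]
          rintro ⟨_, h4⟩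
          obtain ⟨k, rfl⟩ : ∃ k : Fin (n + 1), j = k.succ := ⟨j.pred hj, by simp⟩
          exact h4.1 (hφe k)
        simp only [Matrix.of_apply, Fin.cons_zero, h3, mul_zero, zero_mul]
      · intro h; exact absurd (Finset.mem_univ _) h
  intro z hz
  obtain ⟨x, ⟨hx1, hx2⟩, hx3⟩ := h1 hz
  exact ⟨x, hx1, LinearMap.mem_ker.mp hx2, hx3⟩

theorem rk_univ_eq [FiniteDimensional K V] {v : E → V} {A : Finset E}
    (h : rk K v A = finrank K V) : Submodule.span K (v '' (A : Set E)) = ⊤ :=
  Submodule.eq_top_of_finrank_eq h

/-- Lower bound for the dimension of the span of the flags whose hyperplane contains `b`. -/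
theorem finrank_Kb_ge [FiniteDimensional K V] (v : E → V) (A : Finset E) (b : E) (n : ℕ)
    (hV : finrank K V = n + 1) (hA : rk K v A = n + 1) (hb : b ∈ A) :
    muF (rk K v) A (n + 1) - beF (rk K v) A (n + 1) ≤ finrank K (Kb K v A b n) := by
  induction hc : A.card generalizing V A n with
  | zero =>
    exfalso
    rw [Finset.card_eq_zero.mp hc] at hb
    simp at hb
  | succ c ih =>
    by_cases hloop : ∃ x ∈ A, v x = 0
    · obtain ⟨x, hx, hvx⟩ := hloop
      obtain ⟨A', hxA', rfl⟩ : ∃ A', x ∉ A' ∧ insert x A' = A :=
        ⟨A.erase x, Finset.notMem_erase x A, Finset.insert_erase hx⟩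
      rw [muF_loop hxA' _ (fun X _ => rk_insert_zero v hvx X),
        beF_loop hxA' _ (fun X _ => rk_insert_zero v hvx X)]
      simp
    · push Not at hloop
      by_cases hex : ∃ e ∈ A, e ≠ b ∧ rk K v (A.erase e) = n + 1
      · obtain ⟨e, he, heb, hrke⟩ := hex
        obtain ⟨A', heA', rfl⟩ : ∃ A', e ∉ A' ∧ insert e A' = A :=
          ⟨A.erase e, Finset.notMem_erase e A, Finset.insert_erase he⟩
        rw [Finset.erase_insert heA'] at hrke
        rw [Finset.card_insert_of_notMem heA'] at hc
        have hcc : A'.card = c := by omega
        have hbA' : b ∈ A' := by
          rcases Finset.mem_insert.mp hb with h | h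
          · exact absurd h.symm heb
          · exact h
        have hve : v e ≠ 0 := hloop e he
        rw [muF_insert heA' n (fun X _ => rk_contr v hve X),
          beF_insert heA' n ⟨b, hbA'⟩ (fun X _ => rk_contr v hve X)]
        have i1 := ih v A' n hV hrke hbA' hcc
        by_cases hpar : ∃ x ∈ A', ctr K v e x = 0
        · obtain ⟨x, hx, hvx⟩ := hpar
          have h1 : muF (rk K (ctr K v e)) A' n = 0 ∧ beF (rk K (ctr K v e)) A' n = 0 := by
            obtain ⟨B, hxB, hB⟩ : ∃ B, x ∉ B ∧ insert x B = A' :=
              ⟨A'.erase x, Finset.notMem_erase x A', Finset.insert_erase hx⟩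
            rw [← hB]
            exact ⟨muF_loop hxB _ (fun X _ => rk_insert_zero _ hvx X),
              beF_loop hxB _ (fun X _ => rk_insert_zero _ hvx X)⟩
          rw [h1.1, h1.2]
          have h2 : finrank K (Kb K v A' b n) ≤ finrank K (Kb K v (insert e A') b n) := by
            have h3 := finrank_ge_add (Kb K v (insert e A') b n) (Kb K v A' b n)
              (⊥ : Submodule K ((Fin (n + 1) → E) → K)) (resA K E A' (n + 1)) LinearMap.id
              (Kb_res (Finset.subset_insert e A')) (by
                intro z hz
                rw [Submodule.mem_bot] at hz
                subst hz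
                exact ⟨0, Submodule.zero_mem _, map_zero _, map_zero _⟩)
            omega
          have h3 : (finrank K (Kb K v A' b n) : ℤ) ≤ finrank K (Kb K v (insert e A') b n) := by
            exact_mod_cast h2
          linarith
        · push Not at hpar
          have hrkc := rk_contr (K := K) v hve A'
          have hVq : finrank K (V ⧸ (Submodule.span K {v e})) = n := by
            have h1 := Submodule.finrank_quotient_add_finrank (Submodule.span K {v e})
            rw [finrank_span_singleton hve, hV] at h1
            omega
          have hins : rk K v (insert e A') = n + 1 := hA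
          cases n with
          | zero =>
            exfalso
            have h1 := hpar b hbA'
            apply h1
            have : Subsingleton (V ⧸ (Submodule.span K {v e})) := by
              rw [← finrank_zero_iff (R := K)]
              exact hVq
            exact Subsingleton.elim _ _
          | succ n =>
            have i2 := ih (ctr K v e) A' n hVq (by omega) hbA' hcc
            have h2 := finrank_ge_add (Kb K v (insert e A') b (n + 1)) (Kb K v A' b (n + 1))
              (Kb K (ctr K v e) A' b n) (resA K E A' (n + 2)) (conE K e (n + 1))
              (Kb_res (Finset.subset_insert e A')) (Kb_con heA' hve hpar)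
            have h3 : (finrank K (Kb K v A' b (n + 1)) : ℤ) + finrank K (Kb K (ctr K v e) A' b n)
                ≤ finrank K (Kb K v (insert e A') b (n + 1)) := by exact_mod_cast h2
            linarith
      · push Not at hex
        -- Boolean case
        have hli : LinearIndepOn K v (A : Set E) := by
          rw [linearIndepOn_finset_iff]
          intro f hf
          have h1 : ∀ i ∈ A, i ≠ b → f i = 0 := by
            intro i hi hib
            by_contra hfi
            apply hex i hi hib
            rw [← hA]
            unfold rk
            have hsp : Submodule.span K (v '' ((A.erase i : Finset E) : Set E))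
                = Submodule.span K (v '' (A : Set E)) := ?_
            · rw [hsp]
            apply le_antisymm
            · exact Submodule.span_mono (Set.image_mono (by
                exact_mod_cast Finset.erase_subset i A))
            · rw [Submodule.span_le]
              rintro _ ⟨x, hx, rfl⟩
              by_cases hxi : x = i
              · subst hxi
                rw [← Finset.add_sum_erase A _ hi] at hf
                have h2 : v x = (-(f x)⁻¹) • ∑ y ∈ A.erase x, f y • v y := by
                  have h3 : ∑ y ∈ A.erase x, f y • v y = - (f x • v x) := by
                    rw [eq_neg_iff_add_eq_zero, add_comm]; exact hf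
                  rw [h3, smul_neg, neg_smul, neg_neg, smul_smul, inv_mul_cancel₀ hfi, one_smul]
                rw [SetLike.mem_coe, h2]
                apply Submodule.smul_mem
                apply Submodule.sum_mem
                intro y hy
                apply Submodule.smul_mem
                exact Submodule.subset_span ⟨y, hy, rfl⟩
              · apply Submodule.subset_span
                refine ⟨x, ?_, rfl⟩
                have : x ∈ A.erase i := Finset.mem_erase.mpr ⟨hxi, hx⟩
                exact this
          intro i hi
          by_cases hib : i = b
          · subst hib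
            rw [Finset.sum_eq_single i] at hf
            · rcases smul_eq_zero.mp hf with h2 | h2
              · exact h2
              · exact absurd h2 (hloop i hi)
            · intro j hj hji
              rw [h1 j hj hji, zero_smul]
            · intro h; exact absurd hi h
          · exact h1 i hi hib
        have hrkX : ∀ X ⊆ A, rk K v X = X.card := by
          intro X hX
          have h1 : LinearIndepOn K v (X : Set E) := hli.mono (by exact_mod_cast hX)
          have h2 := finrank_span_eq_card (R := K) h1
          unfold rk
          rw [Set.image_eq_range]
          rw [h2]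
          simp
        have hcard : A.card = n + 1 := by rw [← hrkX A (le_refl _), hA]
        have hmu1 : muF (rk K v) A (n + 1) = 1 := by
          rw [← hcard]; exact muF_card _ hrkX
        rw [hmu1]
        cases n with
        | zero =>
          obtain ⟨a, ha⟩ := Finset.card_eq_one.mp hcard
          rw [ha, beF_one]
          · simp
          · exact rk_empty v
          · rw [hrkX {a} (by rw [ha])]
            simp
        | succ n =>
          rw [beF_card _ (by omega) _ hrkX]
          -- a nonzero flag
          obtain ⟨τ, hτ⟩ : ∃ τ : Fin (n + 2) ≃ {x // x ∈ A}, (τ 0).1 = b := by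
            let τ0 := (Finset.equivFinOfCardEq hcard).symm
            refine ⟨(Equiv.swap 0 (τ0.symm ⟨b, hb⟩)).trans τ0, ?_⟩
            simp
          have hli2 : LinearIndependent K (fun i => v (τ i).1) := by
            have h1 : LinearIndependent K (fun x : {x // x ∈ A} => v x.1) := hli
            exact h1.comp τ τ.injective
          let u : Module.Basis (Fin (n + 2)) K V :=
            basisOfLinearIndependentOfCardEqFinrank hli2 (by rw [hV, Fintype.card_fin])
          have hu : ∀ i, u i = v (τ i).1 := by
            intro i
            simp [u]
          let φ : V →ₗ[K] (Fin (n + 2) → K) := u.equivFun.toLinearMap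
          have hφ : ∀ i j, φ (v (τ i).1) j = if i = j then 1 else 0 := by
            intro i j
            rw [← hu i]
            change u.equivFun (u i) j = _
            rw [Module.Basis.equivFun_self]
          have hlev : ∀ i j, IsLev (φ (v (τ i).1)) j ↔ i = j := by
            intro i j
            constructor
            · intro h
              by_contra hne
              apply h.1
              rw [hφ, if_neg hne]
            · rintro rfl
              refine ⟨by rw [hφ, if_pos rfl]; exact one_ne_zero, ?_⟩
              intro j' hj'
              rw [hφ, if_neg (ne_of_lt hj')]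
          have hmem : detF (hF φ v A) ∈ Kb K v A b (n + 1) := by
            apply Submodule.subset_span
            refine ⟨φ, u.equivFun.injective, ?_, rfl⟩
            rw [← hτ, hφ, if_neg]
            intro h
            exact absurd h (Fin.last_pos).ne
          have hne : detF (hF φ v A) (fun i => (τ i).1) ≠ (0 : K) := by
            have h1 : (Matrix.of fun i j => hF φ v A j ((τ i).1)) = (1 : Matrix _ _ K) := by
              funext i j
              simp only [Matrix.of_apply, Matrix.one_apply]
              unfold hF
              simp only [hlev, (τ i).2, true_and]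
            unfold detF
            rw [h1, Matrix.det_one]
            exact one_ne_zero
          have hpos : 0 < finrank K (Kb K v A b (n + 1)) := by
            rw [Module.finrank_pos_iff]
            refine ⟨⟨⟨_, hmem⟩, 0, ?_⟩⟩
            intro h0
            apply hne
            have := congrArg Subtype.val h0
            exact congrFun this _
          have : (1 : ℤ) ≤ finrank K (Kb K v A b (n + 1)) := by exact_mod_cast hpos
          linarith

end Pool.Agent.Helper83.DC
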