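import Pool.Agent.Helper83.DC.Lin

set_option autoImplicit false
set_option linter.unusedSectionVars false

/-! Numerical deletion-contraction. -/

namespace Pool.Agent.Helper83.DC

open Finset

variable {E : Type*} [DecidableEq E]

/-- `(-1)^n` times the alternating count of the subsets of `A` of rank `n`. -/
def muF (ρ : Finset E → ℕ) (A : Finset E) (n : ℕ) : ℤ :=
  (-1) ^ n * ∑ X ∈ A.powerset, if ρ X = n then (-1 : ℤ) ^ X.card else 0

/-- `(-1)^n` times the alternating sum of the ranks of the subsets of `A`. -/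
def beF (ρ : Finset E → ℕ) (A : Finset E) (n : ℕ) : ℤ :=
  (-1) ^ n * ∑ X ∈ A.powerset, (-1 : ℤ) ^ X.card * (ρ X : ℤ)

theorem muF_insert {ρ ρ' : Finset E → ℕ} {A : Finset E} {e : E} (he : e ∉ A) (n : ℕ)
    (h : ∀ X ⊆ A, ρ (insert e X) = ρ' X + 1) :
    muF ρ (insert e A) (n + 1) = muF ρ A (n + 1) + muF ρ' A n := by
  unfold muF
  rw [Finset.sum_powerset_insert he]
  have h1 : ∑ X ∈ A.powerset, (if ρ (insert e X) = n + 1 then (-1 : ℤ) ^ (insert e X).card else 0)
      = - ∑ X ∈ A.powerset, (if ρ' X = n then (-1 : ℤ) ^ X.card else 0) := by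
    rw [← Finset.sum_neg_distrib]
    apply Finset.sum_congr rfl
    intro X hX
    have hXA := Finset.mem_powerset.mp hX
    have heX : e ∉ X := fun hh => he (hXA hh)
    rw [h X hXA, Finset.card_insert_of_notMem heX]
    by_cases h2 : ρ' X = n
    · simp [h2, pow_succ]
    · simp [h2]
  rw [h1]
  ring

theorem muF_insert_zero {ρ : Finset E → ℕ} {A : Finset E} {e : E} (he : e ∉ A)
    (h : ∀ X ⊆ A, ρ (insert e X) ≠ 0) :
    muF ρ (insert e A) 0 = muF ρ A 0 := by
  unfold muF
  rw [Finset.sum_powerset_insert he]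
  have h1 : ∑ X ∈ A.powerset, (if ρ (insert e X) = 0 then (-1 : ℤ) ^ (insert e X).card else 0) = 0 := by
    apply Finset.sum_eq_zero
    intro X hX
    rw [if_neg (h X (Finset.mem_powerset.mp hX))]
  rw [h1, add_zero]

theorem muF_loop {ρ : Finset E → ℕ} {A : Finset E} {e : E} (he : e ∉ A) (n : ℕ)
    (h : ∀ X ⊆ A, ρ (insert e X) = ρ X) : muF ρ (insert e A) n = 0 := by
  unfold muF
  rw [Finset.sum_powerset_insert he]
  have h1 : ∑ X ∈ A.powerset, (if ρ (insert e X) = n then (-1 : ℤ) ^ (insert e X).card else 0)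
      = - ∑ X ∈ A.powerset, (if ρ X = n then (-1 : ℤ) ^ X.card else 0) := by
    rw [← Finset.sum_neg_distrib]
    apply Finset.sum_congr rfl
    intro X hX
    have hXA := Finset.mem_powerset.mp hX
    have heX : e ∉ X := fun hh => he (hXA hh)
    rw [h X hXA, Finset.card_insert_of_notMem heX]
    by_cases h2 : ρ X = n
    · simp [h2, pow_succ]
    · simp [h2]
  rw [h1]
  ring

theorem beF_loop {ρ : Finset E → ℕ} {A : Finset E} {e : E} (he : e ∉ A) (n : ℕ)
    (h : ∀ X ⊆ A, ρ (insert e X) = ρ X) : beF ρ (insert e A) n = 0 := by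
  unfold beF
  rw [Finset.sum_powerset_insert he]
  have h1 : ∑ X ∈ A.powerset, (-1 : ℤ) ^ (insert e X).card * (ρ (insert e X) : ℤ)
      = - ∑ X ∈ A.powerset, (-1 : ℤ) ^ X.card * (ρ X : ℤ) := by
    rw [← Finset.sum_neg_distrib]
    apply Finset.sum_congr rfl
    intro X hX
    have hXA := Finset.mem_powerset.mp hX
    have heX : e ∉ X := fun hh => he (hXA hh)
    rw [h X hXA, Finset.card_insert_of_notMem heX]
    ring
  rw [h1]
  ring

theorem beF_insert {ρ ρ' : Finset E → ℕ} {A : Finset E} {e : E} (he : e ∉ A) (n : ℕ)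
    (hA : A.Nonempty) (h : ∀ X ⊆ A, ρ (insert e X) = ρ' X + 1) :
    beF ρ (insert e A) (n + 1) = beF ρ A (n + 1) + beF ρ' A n := by
  unfold beF
  rw [Finset.sum_powerset_insert he]
  have h0 : ∑ X ∈ A.powerset, (-1 : ℤ) ^ X.card = 0 := by
    rw [Finset.sum_powerset_neg_one_pow_card, if_neg hA.ne_empty]
  have h1 : ∑ X ∈ A.powerset, (-1 : ℤ) ^ (insert e X).card * (ρ (insert e X) : ℤ)
      = - ∑ X ∈ A.powerset, (-1 : ℤ) ^ X.card * (ρ' X : ℤ) := by
    have h2 : ∑ X ∈ A.powerset, (-1 : ℤ) ^ (insert e X).card * (ρ (insert e X) : ℤ)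
        = ∑ X ∈ A.powerset, (-((-1 : ℤ) ^ X.card * (ρ' X : ℤ)) - (-1 : ℤ) ^ X.card) := by
      apply Finset.sum_congr rfl
      intro X hX
      have hXA := Finset.mem_powerset.mp hX
      have heX : e ∉ X := fun hh => he (hXA hh)
      rw [h X hXA, Finset.card_insert_of_notMem heX]
      push_cast
      ring
    rw [h2, Finset.sum_sub_distrib, h0, Finset.sum_neg_distrib]
    ring
  rw [h1]
  ring

/-- Boolean case of the beta invariant. -/
theorem beF_card {A : Finset E} (n : ℕ) (hA : 2 ≤ A.card) (ρ : Finset E → ℕ)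
    (h : ∀ X ⊆ A, ρ X = X.card) : beF ρ A n = 0 := by
  obtain ⟨e, he⟩ : A.Nonempty := by
    rw [← Finset.card_pos]; omega
  obtain ⟨A', heA', rfl⟩ : ∃ A', e ∉ A' ∧ insert e A' = A :=
    ⟨A.erase e, Finset.notMem_erase e A, Finset.insert_erase he⟩
  rw [Finset.card_insert_of_notMem heA'] at hA
  have hne : A'.Nonempty := by
    rw [← Finset.card_pos]; omega
  unfold beF
  rw [Finset.sum_powerset_insert heA']
  have h0 : ∑ X ∈ A'.powerset, (-1 : ℤ) ^ X.card = 0 := by
    rw [Finset.sum_powerset_neg_one_pow_card, if_neg hne.ne_empty]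
  have h1 : ∑ X ∈ A'.powerset, (-1 : ℤ) ^ X.card * (ρ X : ℤ)
      + ∑ X ∈ A'.powerset, (-1 : ℤ) ^ (insert e X).card * (ρ (insert e X) : ℤ) = 0 := by
    rw [← Finset.sum_add_distrib]
    have h2 : ∀ X ∈ A'.powerset, (-1 : ℤ) ^ X.card * (ρ X : ℤ)
        + (-1 : ℤ) ^ (insert e X).card * (ρ (insert e X) : ℤ) = - (-1 : ℤ) ^ X.card := by
      intro X hX
      have hXA := Finset.mem_powerset.mp hX
      have heX : e ∉ X := fun hh => heA' (hXA hh)
      rw [h X (hXA.trans (Finset.subset_insert _ _)), h (insert e X) (Finset.insert_subset_insert _ hXA),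
        Finset.card_insert_of_notMem heX]
      push_cast
      ring
    rw [Finset.sum_congr rfl h2, Finset.sum_neg_distrib, h0, neg_zero]
  rw [h1, mul_zero]

theorem beF_one {a : E} (ρ : Finset E → ℕ) (h0 : ρ ∅ = 0) (h1 : ρ {a} = 1) :
    beF ρ {a} 1 = 1 := by
  unfold beF
  rw [show ({a} : Finset E) = insert a ∅ by simp, Finset.sum_powerset_insert (by simp)]
  simp [h0, h1]

theorem muF_card {A : Finset E} (ρ : Finset E → ℕ) (h : ∀ X ⊆ A, ρ X = X.card) :
    muF ρ A A.card = 1 := by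
  unfold muF
  rw [Finset.sum_eq_single A]
  · rw [h A (le_refl _), if_pos rfl, ← pow_add, ← two_mul, pow_mul]
    simp
  · intro X hX hne
    have hXA := Finset.mem_powerset.mp hX
    rw [h X hXA, if_neg]
    intro hc
    exact hne (Finset.eq_of_subset_of_card_le hXA hc.ge)
  · intro hh
    exact absurd (Finset.mem_powerset_self A) hh

end Pool.Agent.Helper83.DC
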