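import Pool.Agent.Helper83.DC.Rk

set_option autoImplicit false
set_option linter.unusedSectionVars false

/-! The space of top cocycles and its dimension bound. -/

namespace Pool.Agent.Helper83.DC

open Finset Module

variable {E : Type*} [DecidableEq E] [Fintype E]

section
variable (K : Type*) [Field K] {V : Type*} [AddCommGroup V] [Module K V]

/-- Functions on `n`-tuples of elements of `A`, zero on dependent tuples, satisfying the cocycle
condition on `(n+1)`-tuples. -/
def Om (v : E → V) (A : Finset E) (n : ℕ) : Submodule K ((Fin n → E) → K) where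
  carrier := {ω | (∀ s, ω s ≠ 0 → (∀ i, s i ∈ A) ∧ LinearIndependent K (v ∘ s)) ∧
    ∀ s : Fin (n + 1) → E, (∀ i, s i ∈ A) →
      ∑ i : Fin (n + 1), (-1 : K) ^ (i : ℕ) * ω (s ∘ i.succAbove) = 0}
  add_mem' := by
    rintro a b ⟨ha1, ha2⟩ ⟨hb1, hb2⟩
    refine ⟨?_, ?_⟩
    · intro s hs
      by_cases h : a s = 0
      · apply hb1
        intro hb
        apply hs
        rw [Pi.add_apply, h, hb, add_zero]
      · exact ha1 s h
    · intro s hs
      simp only [Pi.add_apply, mul_add, Finset.sum_add_distrib, ha2 s hs, hb2 s hs, add_zero]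
  zero_mem' := by
    refine ⟨fun s hs => absurd rfl hs, fun s _ => ?_⟩
    simp
  smul_mem' := by
    rintro c a ⟨ha1, ha2⟩
    refine ⟨?_, ?_⟩
    · intro s hs
      apply ha1
      intro h
      apply hs
      rw [Pi.smul_apply, h, smul_zero]
    · intro s hs
      have h1 : ∀ i : Fin (n + 1), (-1 : K) ^ (i : ℕ) * (c • a) (s ∘ i.succAbove)
          = c * ((-1 : K) ^ (i : ℕ) * a (s ∘ i.succAbove)) := by
        intro i
        rw [Pi.smul_apply, smul_eq_mul]; ring
      rw [Finset.sum_congr rfl (fun i _ => h1 i), ← Finset.mul_sum, ha2 s hs, mul_zero]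

/-- Restriction to the tuples in `A`. -/
def resA (E : Type*) [DecidableEq E] (A : Finset E) (n : ℕ) :
    ((Fin n → E) → K) →ₗ[K] ((Fin n → E) → K) where
  toFun := fun ω s => if ∀ i, s i ∈ A then ω s else 0
  map_add' := by
    intro x y
    funext s
    by_cases h : ∀ i, s i ∈ A
    · simp only [Pi.add_apply]; rw [if_pos h, if_pos h, if_pos h]
    · simp only [Pi.add_apply]; rw [if_neg h, if_neg h, if_neg h, add_zero]
  map_smul' := by
    intro c x
    funext s
    by_cases h : ∀ i, s i ∈ A
    · simp only [Pi.smul_apply, RingHom.id_apply]; rw [if_pos h, if_pos h]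
    · simp only [Pi.smul_apply, RingHom.id_apply]; rw [if_neg h, if_neg h, smul_zero]

/-- Contraction of cochains. -/
def conE {E : Type*} (e : E) (n : ℕ) :
    ((Fin (n + 1) → E) → K) →ₗ[K] ((Fin n → E) → K) where
  toFun := fun ω t => ω (Fin.cons e t)
  map_add' := by
    intro x y
    rfl
  map_smul' := by
    intro c x
    rfl

end

variable {K : Type*} [Field K] {V : Type*} [AddCommGroup V] [Module K V]

theorem cons_comp_zero {n : ℕ} (e : E) (s : Fin n → E) :
    (Fin.cons e s : Fin (n + 1) → E) ∘ (0 : Fin (n + 1)).succAbove = s := by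
  funext i
  simp

theorem cons_comp_succ {n : ℕ} (e : E) (s : Fin (n + 1) → E) (i : Fin (n + 1)) :
    (Fin.cons e s : Fin (n + 2) → E) ∘ i.succ.succAbove = Fin.cons e (s ∘ i.succAbove) := by
  funext j
  refine Fin.cases ?_ ?_ j
  · simp
  · intro k
    simp

/-- The cocycle condition with a fixed first element. -/
theorem Om_cone {v : E → V} {A : Finset E} {n : ℕ} {ω : (Fin (n + 1) → E) → K}
    (hω : ω ∈ Om K v A (n + 1)) {e : E} (he : e ∈ A) (s : Fin (n + 1) → E) (hs : ∀ i, s i ∈ A) :
    ω s = ∑ i : Fin (n + 1), (-1 : K) ^ (i : ℕ) * ω (Fin.cons e (s ∘ i.succAbove)) := by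
  have h1 := hω.2 (Fin.cons e s) (by
    intro i
    refine Fin.cases ?_ ?_ i
    · simpa using he
    · intro j; simpa using hs j)
  rw [Fin.sum_univ_succ, cons_comp_zero] at h1
  have h2 : ∀ i : Fin (n + 1), (-1 : K) ^ ((i.succ : Fin (n + 2)) : ℕ)
      * ω ((Fin.cons e s : Fin (n + 2) → E) ∘ i.succ.succAbove)
      = - ((-1 : K) ^ (i : ℕ) * ω (Fin.cons e (s ∘ i.succAbove))) := by
    intro i
    rw [cons_comp_succ, Fin.val_succ, pow_succ]
    ring
  rw [Finset.sum_congr rfl (fun i _ => h2 i), Finset.sum_neg_distrib] at h1
  simp only [Fin.val_zero, pow_zero, one_mul] at h1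
  exact eq_of_sub_eq_zero (by rw [sub_eq_add_neg]; exact h1)

theorem Om_eq_bot_of_loop {v : E → V} {A : Finset E} {n : ℕ} {e : E} (he : e ∈ A)
    (hve : v e = 0) : Om K v A n = ⊥ := by
  rw [eq_bot_iff]
  intro ω hω
  rw [Submodule.mem_bot]
  funext s
  by_contra hs
  have hs1 := hω.1 s hs
  cases n with
  | zero =>
    have h1 := hω.2 (fun _ => e) (fun _ => he)
    simp only [Nat.reduceAdd, Finset.univ_unique, Fin.default_eq_zero, Fin.isValue,
      Fin.val_eq_zero, pow_zero, one_mul, Finset.sum_singleton] at h1
    apply hs
    rw [Pi.zero_apply, ← h1]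
    congr 1
    exact Subsingleton.elim _ _
  | succ n =>
    apply hs
    rw [Om_cone hω he s hs1.1]
    apply Finset.sum_eq_zero
    intro i _
    have h1 : ω (Fin.cons e (s ∘ i.succAbove)) = 0 := by
      by_contra h2
      have h3 := (hω.1 _ h2).2
      have h4 := h3.ne_zero 0
      apply h4
      simpa using hve
    rw [h1, mul_zero]

theorem linInd_ctr {n : ℕ} {v : E → V} {e : E} {t : Fin n → E}
    (h : LinearIndependent K (v ∘ (Fin.cons e t : Fin (n + 1) → E))) :
    LinearIndependent K (ctr K v e ∘ t) := by
  have h1 : v ∘ (Fin.cons e t : Fin (n + 1) → E) = Fin.cons (v e) (v ∘ t) := by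
    funext i
    refine Fin.cases ?_ ?_ i
    · simp
    · intro j; simp
  rw [h1, linearIndependent_finCons] at h
  have h2 : ctr K v e ∘ t = (Submodule.span K {v e}).mkQ ∘ (v ∘ t) := rfl
  rw [h2]
  apply h.1.map
  rw [Submodule.ker_mkQ, Submodule.disjoint_span_singleton' (by
    intro hv
    apply h.2
    rw [hv]
    exact Submodule.zero_mem _)]
  exact h.2

theorem resA_mem {v : E → V} {A A' : Finset E} (hA : A' ⊆ A) {n : ℕ} {ω : (Fin n → E) → K}
    (hω : ω ∈ Om K v A n) : resA K E A' n ω ∈ Om K v A' n := by
  refine ⟨?_, ?_⟩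
  · intro s hs
    by_cases h : ∀ i, s i ∈ A'
    · refine ⟨h, ?_⟩
      have h1 : resA K E A' n ω s = ω s := if_pos h
      rw [h1] at hs
      exact (hω.1 s hs).2
    · exact absurd (if_neg h) hs
  · intro s hs
    have h1 : ∀ i : Fin (n + 1), resA K E A' n ω (s ∘ i.succAbove) = ω (s ∘ i.succAbove) :=
      fun i => if_pos (fun j => hs _)
    rw [Finset.sum_congr rfl (fun i _ => by rw [h1 i])]
    exact hω.2 s (fun i => hA (hs i))

theorem finrank_Om_le [FiniteDimensional K V] (v : E → V) (A : Finset E) (n : ℕ)
    (h : rk K v A ≤ n) : (finrank K (Om K v A n) : ℤ) ≤ muF (rk K v) A n := by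
  induction hc : A.card generalizing V A n with
  | zero =>
    have hA : A = ∅ := Finset.card_eq_zero.mp hc
    subst hA
    cases n with
    | zero =>
      have h1 : finrank K (Om K v ∅ 0) ≤ finrank K ((Fin 0 → E) → K) := Submodule.finrank_le _
      rw [Module.finrank_pi, Fintype.card_unique] at h1
      have h2 : muF (rk K v) (∅ : Finset E) 0 = 1 := by
        unfold muF
        simp [rk_empty]
      rw [h2]
      exact_mod_cast h1
    | succ n =>
      have h1 : Om K v ∅ (n + 1) = ⊥ := by
        rw [eq_bot_iff]
        intro ω hω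
        rw [Submodule.mem_bot]
        funext s
        by_contra hs
        have := (hω.1 s hs).1 0
        simp at this
      rw [h1, finrank_bot]
      unfold muF
      simp [rk_empty]
  | succ c ih =>
    obtain ⟨e, he⟩ : A.Nonempty := by
      rw [← Finset.card_pos]; omega
    obtain ⟨A', heA', rfl⟩ : ∃ A', e ∉ A' ∧ insert e A' = A :=
      ⟨A.erase e, Finset.notMem_erase e A, Finset.insert_erase he⟩
    rw [Finset.card_insert_of_notMem heA'] at hc
    have hcc : A'.card = c := by omega
    by_cases hve : v e = 0
    · rw [Om_eq_bot_of_loop (Finset.mem_insert_self e A') hve, finrank_bot,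
        muF_loop heA' n (fun X _ => rk_insert_zero v hve X)]
      simp
    · have hrk := rk_contr (K := K) v hve A'
      cases n with
      | zero => omega
      | succ n =>
        rw [muF_insert heA' n (fun X _ => rk_contr v hve X)]
        have i1 := ih v A' (n + 1) ((rk_mono v (Finset.subset_insert e A')).trans h) hcc
        have i2 := ih (ctr K v e) A' n (by omega) hcc
        have h3 : finrank K (Om K v (insert e A') (n + 1))
            ≤ finrank K (Om K v A' (n + 1)) + finrank K (Om K (ctr K v e) A' n) := by
          apply finrank_le_add _ _ _ (resA K E A' (n + 1)) (conE K e n)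
          · intro ω hω
            exact resA_mem (Finset.subset_insert e A') hω
          · intro ω hω h0
            refine ⟨?_, ?_⟩
            · intro t ht
              have h4 := hω.1 _ ht
              refine ⟨?_, linInd_ctr h4.2⟩
              intro i
              have h5 := h4.1 i.succ
              rw [Fin.cons_succ] at h5
              rcases Finset.mem_insert.mp h5 with h6 | h6
              · exfalso
                have h7 := h4.2.injective
                have h8 : (0 : Fin (n + 1)) = i.succ := by
                  apply h7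
                  simp [h6]
                exact (Fin.succ_ne_zero i) h8.symm
              · exact h6
            · intro t ht
              have h4 : ∀ i : Fin (n + 1), conE K e n ω (t ∘ i.succAbove)
                  = ω (Fin.cons e (t ∘ i.succAbove)) := fun i => rfl
              rw [Finset.sum_congr rfl (fun i _ => by rw [h4 i]),
                ← Om_cone hω (Finset.mem_insert_self e A') t
                  (fun i => Finset.mem_insert_of_mem (ht i))]
              have h5 : resA K E A' (n + 1) ω t = ω t := if_pos ht
              rw [← h5, h0]; rfl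
          · intro ω hω _ h0
            funext s
            by_contra hs
            have hs1 := (hω.1 s hs).1
            apply hs
            rw [Om_cone hω (Finset.mem_insert_self e A') s hs1]
            apply Finset.sum_eq_zero
            intro i _
            have h4 : ω (Fin.cons e (s ∘ i.succAbove)) = conE K e n ω (s ∘ i.succAbove) := rfl
            rw [h4, h0]
            simp
        have h4 : (finrank K (Om K v (insert e A') (n + 1)) : ℤ)
            ≤ finrank K (Om K v A' (n + 1)) + finrank K (Om K (ctr K v e) A' n) := by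
          exact_mod_cast h3
        linarith

end Pool.Agent.Helper83.DC
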