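import Pool.Agent.Helper83.DC.Num

set_option autoImplicit false
set_option linter.unusedSectionVars false

/-! Rank function of a vector configuration. -/

namespace Pool.Agent.Helper83.DC

open Finset Module

variable {E : Type*} [DecidableEq E] {K : Type*} [Field K]
  {V : Type*} [AddCommGroup V] [Module K V]

/-- The rank function of a vector configuration. -/
noncomputable def rk (K : Type*) [Field K] {V : Type*} [AddCommGroup V] [Module K V]
    (v : E → V) (X : Finset E) : ℕ :=
  finrank K (Submodule.span K (v '' (X : Set E)))

theorem rk_empty (v : E → V) : rk K v ∅ = 0 := by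
  unfold rk
  rw [Finset.coe_empty, Set.image_empty, Submodule.span_empty, finrank_bot]

theorem rk_mono [FiniteDimensional K V] (v : E → V) {X Y : Finset E} (h : X ⊆ Y) :
    rk K v X ≤ rk K v Y := by
  unfold rk
  apply Submodule.finrank_mono
  apply Submodule.span_mono
  exact Set.image_mono (by exact_mod_cast h)

theorem rk_insert_zero (v : E → V) {e : E} (he : v e = 0) (X : Finset E) :
    rk K v (insert e X) = rk K v X := by
  unfold rk
  rw [Finset.coe_insert, Set.image_insert_eq, he, Submodule.span_insert_zero]

/-- The contracted configuration. -/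
def ctr (K : Type*) [Field K] {V : Type*} [AddCommGroup V] [Module K V] (v : E → V) (e : E) :
    E → V ⧸ (Submodule.span K {v e}) :=
  fun x => (Submodule.span K {v e}).mkQ (v x)

theorem rk_contr [FiniteDimensional K V] (v : E → V) {e : E} (he : v e ≠ 0) (X : Finset E) :
    rk K v (insert e X) = rk K (ctr K v e) X + 1 := by
  unfold rk
  set P := Submodule.span K (v '' ((insert e X : Finset E) : Set E)) with hP
  set L := Submodule.span K {v e} with hL
  have hLP : L ≤ P := by
    apply Submodule.span_mono
    rw [Set.singleton_subset_iff]
    exact ⟨e, by simp, rfl⟩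
  have h1 := (L.mkQ.domRestrict P).finrank_range_add_finrank_ker
  have h2 : LinearMap.range (L.mkQ.domRestrict P)
      = Submodule.span K ((ctr K v e) '' (X : Set E)) := by
    rw [LinearMap.range_domRestrict, hP, Submodule.map_span]
    rw [Finset.coe_insert, Set.image_insert_eq, Set.image_insert_eq]
    have h3 : L.mkQ (v e) = 0 := by
      rw [Submodule.mkQ_apply, Submodule.Quotient.mk_eq_zero]
      exact Submodule.mem_span_singleton_self _
    rw [h3, Submodule.span_insert_zero, ← Set.image_comp]
    rfl
  have h3 : finrank K (LinearMap.ker (L.mkQ.domRestrict P)) = 1 := by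
    have h4 : LinearMap.ker (L.mkQ.domRestrict P) = L.comap P.subtype := by
      rw [LinearMap.ker_domRestrict, Submodule.ker_mkQ]
    rw [h4, (Submodule.comapSubtypeEquivOfLe hLP).finrank_eq, hL]
    exact finrank_span_singleton he
  rw [h2, h3] at h1
  exact h1.symm

theorem rk_le_card (v : E → V) (X : Finset E) : rk K v X ≤ X.card := by
  classical
  unfold rk
  have h1 := finrank_span_finset_le_card (R := K) (X.image v)
  rw [Finset.coe_image] at h1
  exact h1.trans Finset.card_image_le

end Pool.Agent.Helper83.DC
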