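import Pool.Agent.Helper83.DC.Ev

set_option autoImplicit false
set_option linter.unusedSectionVars false

/-! The vanishing theorem. -/

namespace Pool.Agent.Helper83.DC

open Finset Module

variable {E : Type*} [DecidableEq E] [Fintype E]
variable {K : Type*} [Field K] {V : Type*} [AddCommGroup V] [Module K V] {n : ℕ}

/-- Coordinates of the configuration in a basis. -/
noncomputable def co (u : Basis (Fin n) K V) (v : E → V) (i : Fin n) (x : E) : K := u.repr (v x) i

/-- The point `x + ∑_{j ∉ I} z j e_{S j}`. -/
def pt (I : Finset (Fin n)) (S : Fin n → E) (x : E → K) (z : Fin n → K) : E → K :=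
  fun e => x e + ∑ j ∈ Iᶜ, z j * (if e = S j then 1 else 0)

theorem co_S {u : Basis (Fin n) K V} {v : E → V} {S : Fin n → E} (hS : ∀ i, u i = v (S i))
    (i j : Fin n) : co u v i (S j) = if j = i then 1 else 0 := by
  unfold co
  rw [← hS j, Basis.repr_self, Finsupp.single_apply]

theorem S_inj {u : Basis (Fin n) K V} {v : E → V} {S : Fin n → E} (hS : ∀ i, u i = v (S i)) :
    Function.Injective S := by
  intro i j hij
  apply u.injective
  rw [hS, hS, hij]

/-- The evaluation vectors at `pt I S x z`. -/
theorem pt_mul {u : Basis (Fin n) K V} {v : E → V} {S : Fin n → E} (hS : ∀ i, u i = v (S i))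
    {I : Finset (Fin n)} {x : E → K} (hx : ∀ e, x e ≠ 0 → ∀ j, j ∉ I → co u v j e = 0)
    (z : Fin n → K) (i : Fin n) (e : E) :
    pt I S x z e * co u v i e
      = if i ∈ I then x e * co u v i e else z i * (if e = S i then 1 else 0) := by
  classical
  unfold pt
  by_cases hi : i ∈ I
  · rw [if_pos hi]
    have h1 : (∑ j ∈ Iᶜ, z j * (if e = S j then (1 : K) else 0)) * co u v i e = 0 := by
      rw [Finset.sum_mul]
      apply Finset.sum_eq_zero
      intro j hj
      by_cases he : e = S j
      · have hji : j ≠ i := by
          rintro rfl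
          exact (Finset.mem_compl.mp hj) hi
        rw [he, co_S hS, if_neg hji]; ring
      · rw [if_neg he]; ring
    rw [add_mul, h1, add_zero]
  · rw [if_neg hi, add_mul]
    have h1 : x e * co u v i e = 0 := by
      by_cases hxe : x e = 0
      · rw [hxe, zero_mul]
      · rw [hx e hxe i hi, mul_zero]
    rw [h1, zero_add, Finset.sum_mul, Finset.sum_eq_single i]
    · by_cases he : e = S i
      · rw [he, co_S hS, if_pos rfl, if_pos rfl]; ring
      · rw [if_neg he]; ring
    · intro j hj hji
      by_cases he : e = S j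
      · rw [he, co_S hS, if_neg hji]; ring
      · rw [if_neg he]; ring
    · intro h
      exact absurd (Finset.mem_compl.mpr hi) h

theorem ff_pt {u : Basis (Fin n) K V} {v : E → V} {S : Fin n → E} (hS : ∀ i, u i = v (S i))
    (ω : (Fin n → E) → K)
    {I : Finset (Fin n)} {x : E → K} (hx : ∀ e, x e ≠ 0 → ∀ j, j ∉ I → co u v j e = 0)
    (z : Fin n → K) :
    ff (co u v) ω (pt I S x z)
      = ev ω (fun i e => if i ∈ I then x e * co u v i e else z i * (if e = S i then 1 else 0)) := by
  unfold ff
  congr 1
  funext i e
  exact pt_mul hS hx z i e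

/-- Homogeneity in the basis directions. -/
theorem ff_pt_smul {u : Basis (Fin n) K V} {v : E → V} {S : Fin n → E} (hS : ∀ i, u i = v (S i))
    (ω : (Fin n → E) → K)
    {I : Finset (Fin n)} {x : E → K} (hx : ∀ e, x e ≠ 0 → ∀ j, j ∉ I → co u v j e = 0)
    (z : Fin n → K) :
    ff (co u v) ω (pt I S x z) = (∏ j ∈ Iᶜ, z j) * ff (co u v) ω (pt I S x 1) := by
  classical
  rw [ff_pt hS ω hx, ff_pt hS ω hx]
  unfold ev
  rw [Finset.mul_sum]
  apply Finset.sum_congr rfl
  intro s _
  have h1 : ∏ j ∈ Iᶜ, z j = ∏ j : Fin n, (if j ∈ I then 1 else z j) := by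
    rw [← Finset.prod_subset (Finset.subset_univ Iᶜ)]
    · apply Finset.prod_congr rfl
      intro j hj
      rw [if_neg (Finset.mem_compl.mp hj)]
    · intro j _ hj
      rw [Finset.mem_compl, not_not] at hj
      rw [if_pos hj]
  rw [h1, mul_left_comm, ← Finset.prod_mul_distrib]
  congr 1
  apply Finset.prod_congr rfl
  intro i _
  by_cases hi : i ∈ I
  · simp only [if_pos hi, one_mul]
  · simp only [if_neg hi, Pi.one_apply, one_mul]

/-- A tuple of independent vectors with too many members in a coordinate subspace. -/
theorem not_linInd {u : Basis (Fin (n + 1)) K V} {v : E → V}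
    {I : Finset (Fin (n + 1))} {i : Fin (n + 1)} (hi : i ∉ I) {e : E}
    (he : ∀ j, j ∉ I → co u v j e = 0) {t : Fin n → E}
    (ht : ∀ k, i.succAbove k ∈ I → ∀ j, j ∉ I → co u v j (t k) = 0) :
    ¬ LinearIndependent K (v ∘ (Fin.cons e t : Fin (n + 1) → E)) := by
  classical
  intro hli
  let F : Finset (Fin n) := univ.filter (fun k => i.succAbove k ∈ I)
  let P : Finset (Fin (n + 1)) := insert 0 (F.image Fin.succ)
  have hF : I.card ≤ F.card := by
    have h1 : I ⊆ F.image i.succAbove := by
      intro j hj
      have hji : j ≠ i := fun h => hi (h ▸ hj)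
      obtain ⟨k, rfl⟩ := Fin.exists_succAbove_eq hji
      exact Finset.mem_image_of_mem _ (Finset.mem_filter.mpr ⟨Finset.mem_univ _, hj⟩)
    exact (Finset.card_le_card h1).trans Finset.card_image_le
  have hP : P.card = F.card + 1 := by
    have h1 : (0 : Fin (n + 1)) ∉ F.image Fin.succ := by
      intro h
      obtain ⟨k, _, hk⟩ := Finset.mem_image.mp h
      exact (Fin.succ_ne_zero k) hk
    rw [Finset.card_insert_of_notMem h1, Finset.card_image_of_injective _ (Fin.succ_injective n)]
  have hli2 : LinearIndependent K (fun p : {p // p ∈ P} =>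
      (v ∘ (Fin.cons e t : Fin (n + 1) → E)) p.1) :=
    hli.comp _ Subtype.val_injective
  have h1 := finrank_span_eq_card hli2
  rw [Fintype.card_coe, hP] at h1
  have h2 : Submodule.span K (Set.range (fun p : {p // p ∈ P} =>
      (v ∘ (Fin.cons e t : Fin (n + 1) → E)) p.1)) ≤ Submodule.span K ((I.image u : Finset V) : Set V) := by
    rw [Submodule.span_le]
    rintro _ ⟨⟨p, hp⟩, rfl⟩
    have h3 : ∀ x : E, (∀ j, j ∉ I → co u v j x = 0) →
        v x ∈ Submodule.span K ((I.image u : Finset V) : Set V) := by
      intro x hx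
      rw [← u.sum_repr (v x)]
      apply Submodule.sum_mem
      intro j _
      by_cases hj : j ∈ I
      · apply Submodule.smul_mem
        apply Submodule.subset_span
        exact_mod_cast Finset.mem_image_of_mem u hj
      · have : u.repr (v x) j = 0 := hx j hj
        rw [this, zero_smul]
        exact Submodule.zero_mem _
    rcases Finset.mem_insert.mp hp with h | h
    · subst h
      exact h3 e he
    · obtain ⟨k, hk, rfl⟩ := Finset.mem_image.mp h
      have h4 := h3 (t k) (ht k (Finset.mem_filter.mp hk).2)
      simpa using h4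
  have : FiniteDimensional K V := Module.Basis.finiteDimensional_of_finite u
  have h3 := Submodule.finrank_mono h2
  rw [h1] at h3
  have h4 := (finrank_span_finset_le_card (R := K) (I.image u)).trans
    (Finset.card_image_le (s := I) (f := u))
  have h5 := h3.trans h4
  omega

/-- The polynomial vanishes on the dependencies. -/
theorem ff_pt_zero {u : Basis (Fin (n + 1)) K V} {v : E → V} {S : Fin (n + 1) → E}
    (hS : ∀ i, u i = v (S i)) {ω : (Fin (n + 1) → E) → K} (hω : ω ∈ Om K v univ (n + 1))
    {I : Finset (Fin (n + 1))} (hI : I.Nonempty) {w : E → K}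
    (hw : ∀ e, w e ≠ 0 → ∀ j, j ∉ I → co u v j e = 0) (hw0 : ∑ e, w e • v e = 0) :
    ff (co u v) ω (pt I S w 1) = 0 := by
  classical
  obtain ⟨i0, hi0⟩ := hI
  rw [ff_pt hS ω hw, ev_cone hω (S i0)]
  apply Finset.sum_eq_zero
  intro i _
  by_cases hi : i ∈ I
  · have h1 : ∑ x, (if i ∈ I then w x * co u v i x else (1 : Fin (n + 1) → K) i *
        (if x = S i then 1 else 0)) = 0 := by
      have h2 : ∀ x, (if i ∈ I then w x * co u v i x else (1 : Fin (n + 1) → K) i *
        (if x = S i then 1 else 0)) = w x * co u v i x := fun x => if_pos hi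
      rw [Finset.sum_congr rfl (fun x _ => h2 x)]
      have h3 : ∑ x, w x * co u v i x = u.repr (∑ e, w e • v e) i := by
        rw [map_sum, Finsupp.finsetSum_apply]
        apply Finset.sum_congr rfl
        intro x _
        rw [map_smul, Finsupp.smul_apply, smul_eq_mul]
        rfl
      rw [h3, hw0, map_zero]
      rfl
    rw [h1, mul_zero, zero_mul]
  · have h1 : ev (conE K (S i0) n ω) (fun j => (fun (i : Fin (n + 1)) e => if i ∈ I then
        w e * co u v i e else (1 : Fin (n + 1) → K) i * (if e = S i then 1 else 0))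
          (i.succAbove j)) = 0 := by
      unfold ev
      apply Finset.sum_eq_zero
      intro t _
      by_contra hne
      have h2 : ω (Fin.cons (S i0) t) ≠ 0 := by
        intro h
        apply hne
        have : conE K (S i0) n ω t = ω (Fin.cons (S i0) t) := rfl
        rw [this, h, zero_mul]
      have h3 := (hω.1 _ h2).2
      have h4 := right_ne_zero_of_mul hne
      rw [Finset.prod_ne_zero_iff] at h4
      refine not_linInd (u := u) hi ?_ ?_ h3
      · intro j hj
        rw [co_S hS, if_neg]
        rintro rfl
        exact hj hi0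
      · intro k hk j hj
        have h5 := h4 k (Finset.mem_univ k)
        simp only [if_pos hk] at h5
        exact hw _ (left_ne_zero_of_mul h5) j hj
    rw [h1, mul_zero]

end Pool.Agent.Helper83.DC
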