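import Pool.Agent.Helper83.DC.Vanish

set_option autoImplicit false
set_option linter.unusedSectionVars false

/-! The vanishing theorem. -/

namespace Pool.Agent.Helper83.DC

open Finset Module

variable {E : Type*} [DecidableEq E] [Fintype E]
variable {K : Type*} [Field K] {V : Type*} [AddCommGroup V] [Module K V] {n : ℕ}

/-- The total vector of a weighting. -/
noncomputable def tot (K : Type*) [Field K] {V : Type*} [AddCommGroup V] [Module K V]
    (v : E → V) : (E → K) →ₗ[K] V := Fintype.linearCombination K v

theorem tot_apply (v : E → V) (w : E → K) : tot K v w = ∑ e, w e • v e := rfl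

theorem tot_single (v : E → V) (x : E) : tot K v (Pi.single x 1) = v x := by
  unfold tot
  rw [Fintype.linearCombination_apply_single, one_smul]

theorem repr_tot (u : Basis (Fin n) K V) (v : E → V) (w : E → K) (i : Fin n) :
    u.repr (tot K v w) i = ∑ x, w x * co u v i x := by
  rw [tot_apply, map_sum, Finsupp.finsetSum_apply]
  apply Finset.sum_congr rfl
  intro x _
  rw [map_smul, Finsupp.smul_apply, smul_eq_mul]
  rfl

theorem pt_add (I : Finset (Fin n)) (S : Fin n → E) (w d : E → K) (t : K) (z : Fin n → K) :
    pt I S w z + t • d = pt I S (w + t • d) z := by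
  funext e
  unfold pt
  simp only [Pi.add_apply, Pi.smul_apply]
  ring

/-- Support condition. -/
def Sup (u : Basis (Fin n) K V) (v : E → V) (I : Finset (Fin n)) (w : E → K) : Prop :=
  ∀ e, w e ≠ 0 → ∀ j, j ∉ I → co u v j e = 0

theorem Sup.add {u : Basis (Fin n) K V} {v : E → V} {I : Finset (Fin n)} {w d : E → K}
    (hw : Sup u v I w) (hd : Sup u v I d) : Sup u v I (w + d) := by
  intro e he j hj
  by_cases h : w e = 0
  · apply hd e _ j hj
    intro h'
    apply he
    rw [Pi.add_apply, h, h', add_zero]
  · exact hw e h j hj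

theorem Sup.smul {u : Basis (Fin n) K V} {v : E → V} {I : Finset (Fin n)} {d : E → K}
    (hd : Sup u v I d) (t : K) : Sup u v I (t • d) := by
  intro e he j hj
  apply hd e _ j hj
  intro h
  apply he
  rw [Pi.smul_apply, h, smul_zero]

theorem Sup.single {u : Basis (Fin n) K V} {v : E → V} {I : Finset (Fin n)} {x : E}
    (hx : ∀ j, j ∉ I → co u v j x = 0) : Sup u v I (Pi.single x (1 : K)) := by
  intro e he j hj
  have : e = x := by
    by_contra hne
    exact he (Pi.single_eq_of_ne hne _)
  rw [this]
  exact hx j hj

theorem Sup.zero {u : Basis (Fin n) K V} {v : E → V} {I : Finset (Fin n)} :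
    Sup u v I (0 : E → K) := by
  intro e he
  exact absurd rfl he

theorem Sup.sum {u : Basis (Fin n) K V} {v : E → V} {I : Finset (Fin n)} {ι : Type*}
    (s : Finset ι) (f : ι → E → K) (hf : ∀ i ∈ s, Sup u v I (f i)) :
    Sup u v I (∑ i ∈ s, f i) := by
  classical
  induction s using Finset.induction_on with
  | empty => rw [Finset.sum_empty]; exact Sup.zero
  | insert a t ha ih =>
    rw [Finset.sum_insert ha]
    exact (hf a (Finset.mem_insert_self _ _)).add
      (ih (fun i hi => hf i (Finset.mem_insert_of_mem hi)))

theorem Sup.mono {u : Basis (Fin n) K V} {v : E → V} {I J : Finset (Fin n)} (h : I ⊆ J)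
    {w : E → K} (hw : Sup u v I w) : Sup u v J w :=
  fun e he j hj => hw e he j (fun hi => hj (h hi))

section

variable {u : Basis (Fin (n + 1)) K V} {v : E → V} {S : Fin (n + 1) → E}
  {ω : (Fin (n + 1) → E) → K}

/-- The derivative in the direction of a dependency vanishes. -/
theorem dd_dep [Infinite K] (hS : ∀ i, u i = v (S i)) (hω : ω ∈ Om K v univ (n + 1))
    {I : Finset (Fin (n + 1))} (hI : I.Nonempty) {w d : E → K}
    (hw : Sup u v I w) (hw0 : tot K v w = 0) (hd : Sup u v I d) (hd0 : tot K v d = 0) :
    dd (co u v) ω (pt I S w 1) d = 0 := by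
  apply dd_eq_zero
  intro t _
  rw [pt_add]
  apply ff_pt_zero hS hω hI (hw.add (hd.smul t))
  rw [← tot_apply, map_add, map_smul, hw0, hd0, smul_zero, add_zero]

/-- It is enough to kill the basis directions. -/
theorem dd_of_basis [Infinite K] (hS : ∀ i, u i = v (S i)) (hω : ω ∈ Om K v univ (n + 1))
    {I : Finset (Fin (n + 1))} (hI : I.Nonempty) {w d : E → K}
    (hw : Sup u v I w) (hw0 : tot K v w = 0) (hd : Sup u v I d)
    (h : ∀ i ∈ I, dd (co u v) ω (pt I S w 1) (Pi.single (S i) 1) = 0) :
    dd (co u v) ω (pt I S w 1) d = 0 := by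
  classical
  let g : E → K := ∑ i ∈ I, (u.repr (tot K v d) i) • Pi.single (S i) (1 : K)
  have hg : Sup u v I g := by
    apply Sup.sum
    intro i hi
    apply Sup.smul
    apply Sup.single
    intro j hj
    rw [co_S hS, if_neg]
    rintro rfl
    exact hj hi
  have hg0 : tot K v g = tot K v d := by
    have h1 : tot K v g = ∑ i ∈ I, (u.repr (tot K v d) i) • u i := by
      simp only [g, map_sum, map_smul, tot_single]
      apply Finset.sum_congr rfl
      intro i _
      rw [hS i]
    rw [h1]
    conv_rhs => rw [← u.sum_repr (tot K v d)]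
    apply Finset.sum_subset (Finset.subset_univ I)
    intro j _ hj
    have h2 : u.repr (tot K v d) j = 0 := by
      rw [repr_tot]
      apply Finset.sum_eq_zero
      intro x _
      by_cases hx : d x = 0
      · rw [hx, zero_mul]
      · rw [hd x hx j hj, mul_zero]
    rw [h2, zero_smul]
  have h1 : dd (co u v) ω (pt I S w 1) (d + (-1 : K) • g) = 0 := by
    apply dd_dep hS hω hI hw hw0 (hd.add (hg.smul _))
    rw [map_add, map_smul, hg0]
    simp
  have h2 : dd (co u v) ω (pt I S w 1) g = 0 := by
    simp only [g, map_sum, map_smul]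
    apply Finset.sum_eq_zero
    intro i hi
    rw [h i hi, smul_zero]
  rw [map_add, map_smul, h2, smul_zero, add_zero] at h1
  exact h1

/-- The key step. -/
theorem step [Infinite K] (hS : ∀ i, u i = v (S i)) (hω : ω ∈ Om K v univ (n + 1))
    {I : Finset (Fin (n + 1))} (hI : I.Nonempty)
    (ih : ∀ J : Finset (Fin (n + 1)), I ⊂ J → ∀ w : E → K, Sup u v J w → tot K v w = 0 →
      ∀ d : E → K, Sup u v J d → dd (co u v) ω (pt J S w 1) d = 0)
    {w : E → K} (hw : Sup u v I w) (hw0 : tot K v w = 0) (e : E)
    (he : ∃ j, j ∉ I ∧ co u v j e ≠ 0) :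
    ∑ i ∈ I, co u v i e * dd (co u v) ω (pt I S w 1) (Pi.single (S i) 1) = 0 := by
  classical
  have hinj : ∀ s, ω s ≠ 0 → Function.Injective s := by
    intro s hs
    exact ((hω.1 s hs).2.injective).of_comp
  let J : Finset (Fin (n + 1)) := I ∪ univ.filter (fun j => co u v j e ≠ 0)
  have hIJ : I ⊆ J := Finset.subset_union_left
  have hIJ' : I ⊂ J := by
    rw [Finset.ssubset_iff_of_subset hIJ]
    obtain ⟨j, hj, hje⟩ := he
    exact ⟨j, Finset.mem_union_right _ (Finset.mem_filter.mpr ⟨Finset.mem_univ _, hje⟩), hj⟩
  have hJe : ∀ j, j ∉ J → co u v j e = 0 := by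
    intro j hj
    by_contra hne
    exact hj (Finset.mem_union_right _ (Finset.mem_filter.mpr ⟨Finset.mem_univ _, hne⟩))
  let b : E → K := ∑ i ∈ I, co u v i e • Pi.single (S i) (1 : K)
  let β : E → K := ∑ i, co u v i e • Pi.single (S i) (1 : K)
  have hβJ : Sup u v J β := by
    apply Sup.sum
    intro i _
    by_cases hi : i ∈ J
    · apply Sup.smul
      apply Sup.single
      intro j hj
      rw [co_S hS, if_neg]
      rintro rfl
      exact hj hi
    · rw [hJe i hi, zero_smul]
      exact Sup.zero
  have hβ0 : tot K v β = v e := by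
    simp only [β, map_sum, map_smul, tot_single]
    conv_rhs => rw [← u.sum_repr (v e)]
    apply Finset.sum_congr rfl
    intro i _
    rw [hS i]; rfl
  have key : ∀ t : K, t ≠ 0 → ff (co u v) ω (pt I S w 1 + t • b) = 0 := by
    intro t ht
    let y : E → K := w + t • (β + (-1 : K) • Pi.single e 1)
    have hyJ : Sup u v J y :=
      (hw.mono hIJ).add ((hβJ.add ((Sup.single hJe).smul _)).smul t)
    have hy0 : tot K v y = 0 := by
      simp only [y, map_add, map_smul, tot_single, hw0, hβ0]
      simp
    have h1 := ih J hIJ' y hyJ hy0 (Pi.single e 1) (Sup.single hJe)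
    have h2 := ff_pt_zero hS hω (hI.mono hIJ) hyJ hy0
    have h3 := ff_add_single (co u v) ω hinj (pt J S y 1) e t
    rw [h1, h2, mul_zero, add_zero] at h3
    let z : Fin (n + 1) → K := fun j => if j ∈ J then t * co u v j e else 1
    have h4 : pt J S y 1 + t • Pi.single e 1 = pt I S (w + t • b) z := by
      funext x
      simp only [pt, Pi.add_apply, Pi.smul_apply, smul_eq_mul, y, β, b, z, Finset.sum_apply,
        Pi.one_apply, Pi.single_apply, one_mul]
      have h5 : ∑ j ∈ Iᶜ, (if j ∈ J then t * co u v j e else 1) * (if x = S j then (1 : K) else 0)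
          = t * ∑ j ∈ Iᶜ, co u v j e * (if x = S j then (1 : K) else 0)
            + ∑ j ∈ Jᶜ, (if x = S j then (1 : K) else 0) := by
        have h6 : ∑ j ∈ Jᶜ, (if x = S j then (1 : K) else 0)
            = ∑ j ∈ Iᶜ, (if j ∈ J then 0 else (if x = S j then (1 : K) else 0)) := by
          rw [← Finset.sum_subset (Finset.compl_subset_compl.mpr hIJ)]
          · apply Finset.sum_congr rfl
            intro j hj
            rw [if_neg (Finset.mem_compl.mp hj)]
          · intro j _ hj
            rw [Finset.mem_compl, not_not] at hj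
            rw [if_pos hj]
        rw [h6, Finset.mul_sum, ← Finset.sum_add_distrib]
        apply Finset.sum_congr rfl
        intro j _
        by_cases hj : j ∈ J
        · rw [if_pos hj, if_pos hj]; ring
        · rw [if_neg hj, if_neg hj, hJe j hj]; ring
      have h7 : ∑ i, co u v i e * (if x = S i then (1 : K) else 0)
          = ∑ i ∈ I, co u v i e * (if x = S i then (1 : K) else 0)
            + ∑ i ∈ Iᶜ, co u v i e * (if x = S i then (1 : K) else 0) :=
        (Finset.sum_add_sum_compl I _).symm
      rw [h5, h7]
      ring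
    rw [h4, ff_pt_smul hS ω (hw.add (Sup.smul (by
      apply Sup.sum
      intro i hi
      apply Sup.smul
      apply Sup.single
      intro j hj
      rw [co_S hS, if_neg]
      rintro rfl
      exact hj hi) t))] at h3
    rw [pt_add]
    rcases mul_eq_zero.mp h3 with h5 | h5
    · exfalso
      rw [Finset.prod_eq_zero_iff] at h5
      obtain ⟨j, hj, hzj⟩ := h5
      by_cases hjJ : j ∈ J
      · simp only [z, if_pos hjJ] at hzj
        rcases mul_eq_zero.mp hzj with h6 | h6
        · exact ht h6
        · rcases Finset.mem_union.mp hjJ with h7 | h7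
          · exact (Finset.mem_compl.mp hj) h7
          · exact (Finset.mem_filter.mp h7).2 h6
      · simp only [z, if_neg hjJ] at hzj
        exact one_ne_zero hzj
    · exact h5
  have h1 := dd_eq_zero (co u v) ω (pt I S w 1) b key
  simp only [b, map_sum, map_smul, smul_eq_mul] at h1
  exact h1

/-- The vanishing theorem for a fixed basis. -/
theorem vanish [Infinite K] (hS : ∀ i, u i = v (S i)) (hω : ω ∈ Om K v univ (n + 1))
    (hround : ∀ I : Finset (Fin (n + 1)), I ≠ univ →
      Submodule.span K (v '' {e | ∃ j, j ∉ I ∧ co u v j e ≠ 0}) = ⊤)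
    (T : Set E) (hT : Submodule.span K (v '' T) = ⊤)
    (H : ∀ b ∈ T, ∀ w : E → K, tot K v w = 0 → ∀ t : K,
      ff (co u v) ω (w + t • Pi.single b 1) = 0) : ω S = 0 := by
  classical
  have hinj : ∀ s, ω s ≠ 0 → Function.Injective s := by
    intro s hs
    exact ((hω.1 s hs).2.injective).of_comp
  have hptu : ∀ w : E → K, pt univ S w 1 = w := by
    intro w
    funext e
    unfold pt
    simp
  have main : ∀ k : ℕ, ∀ I : Finset (Fin (n + 1)), Iᶜ.card = k → I.Nonempty →
      ∀ w : E → K, Sup u v I w → tot K v w = 0 →
      ∀ d : E → K, Sup u v I d → dd (co u v) ω (pt I S w 1) d = 0 := by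
    intro k
    induction k using Nat.strong_induction_on with
    | _ k ih =>
      intro I hIk hI w hw hw0 d hd
      by_cases hIu : I = univ
      · subst hIu
        have hTv : tot K v d ∈ Submodule.span K (v '' T) := by
          rw [hT]; exact Submodule.mem_top
        have hall : ∀ y ∈ Submodule.span K (v '' T),
            ∃ g : E → K, dd (co u v) ω (pt univ S w 1) g = 0 ∧ tot K v g = y := by
          intro y hy
          induction hy using Submodule.span_induction with
          | mem x hx =>
            obtain ⟨b, hb, rfl⟩ := hx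
            refine ⟨Pi.single b 1, ?_, tot_single v b⟩
            apply dd_eq_zero
            intro t _
            rw [hptu]
            exact H b hb w hw0 t
          | zero => exact ⟨0, map_zero _, map_zero _⟩
          | add x y _ _ hx hy =>
            obtain ⟨g1, h1, h1'⟩ := hx
            obtain ⟨g2, h2, h2'⟩ := hy
            exact ⟨g1 + g2, by rw [map_add, h1, h2, add_zero], by rw [map_add, h1', h2']⟩
          | smul a x _ hx =>
            obtain ⟨g1, h1, h1'⟩ := hx
            exact ⟨a • g1, by rw [map_smul, h1, smul_zero], by rw [map_smul, h1']⟩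
        obtain ⟨g, hg1, hg2⟩ := hall _ hTv
        have h1 : dd (co u v) ω (pt univ S w 1) (d + (-1 : K) • g) = 0 := by
          apply dd_dep hS hω hI hw hw0
          · intro e _ j hj; exact absurd (Finset.mem_univ j) hj
          · rw [map_add, map_smul, hg2]; simp
        rw [map_add, map_smul, hg1, smul_zero, add_zero] at h1
        exact h1
      · have hstep := step hS hω hI (fun J hIJ => ih Jᶜ.card (by
          rw [← hIk]
          apply Finset.card_lt_card
          rwa [Finset.compl_ssubset_compl]) J rfl (hI.mono hIJ.subset)) hw hw0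
        apply dd_of_basis hS hω hI hw hw0 hd
        -- the functional vanishes
        let L : V →ₗ[K] K := ∑ i ∈ I, (dd (co u v) ω (pt I S w 1) (Pi.single (S i) 1)) • u.coord i
        have hL : L = 0 := by
          apply LinearMap.ext_on (hround I hIu)
          rintro _ ⟨e, he, rfl⟩
          rw [LinearMap.zero_apply, ← hstep e he]
          simp only [L, LinearMap.sum_apply, LinearMap.smul_apply, smul_eq_mul]
          apply Finset.sum_congr rfl
          intro i _
          rw [mul_comm]; rfl
        intro i hi
        have h1 : L (u i) = 0 := by rw [hL]; rfl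
        simp only [L, LinearMap.sum_apply, LinearMap.smul_apply, smul_eq_mul,
          Basis.coord_apply, Basis.repr_self] at h1
        rw [Finset.sum_eq_single i] at h1
        · simpa using h1
        · intro j _ hji
          rw [Finsupp.single_eq_of_ne hji, mul_zero]
        · intro h; exact absurd hi h
  -- final evaluation
  let I : Finset (Fin (n + 1)) := {0}
  have hS0 : ∀ j, j ∉ I → co u v j (S 0) = 0 := by
    intro j hj
    rw [co_S hS, if_neg]
    rintro rfl
    exact hj (Finset.mem_singleton_self _)
  have h1 := main Iᶜ.card I rfl ⟨0, Finset.mem_singleton_self _⟩ 0 Sup.zero (map_zero _)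
    (Pi.single (S 0) 1) (Sup.single hS0)
  have h2 := ff_pt_zero hS hω (I := I) ⟨0, Finset.mem_singleton_self _⟩ (w := 0) Sup.zero
    (by simp)
  have h3 := ff_add_single (co u v) ω hinj (pt I S 0 1) (S 0) 1
  rw [h1, h2, mul_zero, add_zero] at h3
  have h4 : pt I S 0 1 + (1 : K) • Pi.single (S 0) 1 = pt ∅ S (0 : E → K) 1 := by
    funext x
    simp only [pt, Pi.add_apply, Pi.smul_apply, smul_eq_mul, Pi.zero_apply, Pi.one_apply,
      Pi.single_apply, one_mul, zero_add, Finset.compl_empty]
    rw [← Finset.sum_add_sum_compl I]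
    simp only [I, Finset.sum_singleton]
    ring
  rw [h4, ff_pt hS ω Sup.zero] at h3
  have h5 : ev ω (fun i e => if i ∈ (∅ : Finset (Fin (n + 1))) then (0 : E → K) e * co u v i e
      else (1 : Fin (n + 1) → K) i * (if e = S i then 1 else 0)) = ω S := by
    unfold ev
    rw [Finset.sum_eq_single S]
    · simp
    · intro s _ hs
      have : ∃ i, s i ≠ S i := by
        by_contra hcon
        push Not at hcon
        exact hs (funext hcon)
      obtain ⟨i, hi⟩ := this
      rw [Finset.prod_eq_zero (Finset.mem_univ i), mul_zero]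
      simp [hi]
    · intro h; exact absurd (Finset.mem_univ _) h
  rw [h5] at h3
  exact h3

end

end Pool.Agent.Helper83.DC
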